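import Pool.Agent.W_448w4_h10.KH
import Pool.Agent.W_448i2_h61.IB

/-!
MP_448cb3_co, G2, case B: the tight configurations of a natural part (energy = twice the surplus).
Abstract setting of `W_448so_h64.SoA`: one side of a window.  The payment of `W_448i2_h61.IB` without the
condition `good`.  helper61.
-/

namespace Pool.Agent.GaussPoset.Win.NF

set_option linter.unusedSectionVars false

open Finset
open Pool.Agent.GaussPoset.Win.SO (Sde Pen TD kS sum_cc kl_of_not_gu not_gu_of_kd so_le t_le_of_kl kn_le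
  cc_le_two cc_eq_two)
open Pool.Agent.GaussPoset.Win.I2 (kd gu kl kn kr so cc fr KK KD bd sur mem_kn mem_kr mem_so kd_iff
  kl_iff mem_bd)

universe u

variable {P : Type u} [DecidableEq P]
variable {c c' : P → Finset P} {e : P → ℕ} {t : P → ℕ} {V Sd : Finset P}

/-- the admissibility of one side -/
def Adm (c c' : P → Finset P) (Sd : Finset P) (e : P → ℕ) : Prop :=
  ∀ z ∈ Sd, ¬ (kd c' e z ∧ gu c e z)

/-- an excited element at distance two: a cover with two sites has a common site with every other cover -/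
def GN (c : P → Finset P) (t : P → ℕ) (Sd : Finset P) (e : P → ℕ) : Prop :=
  ∀ w ∈ Sd, t w = 2 → 0 < e w → ∀ x ∈ c w, ∀ x' ∈ c w, (c x).card = 2 → (c x ∩ c x').Nonempty

lemma sur_ge (S : Sde c c' t V Sd) (adm : Adm c c' Sd e) {z : P} (hz : z ∈ Sd) :
    -1 ≤ sur c c' e z := by
  classical
  unfold sur
  split_ifs with h
  · have h1 := t_le_of_kl S adm (t z) z hz h rfl
    have h2 := S.tS z hz
    have h3 := cc_le_two (e := e) S z
    omega
  · omega

lemma sur_nonneg (S : Sde c c' t V Sd) (adm : Adm c c' Sd e) {z : P}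
    (hz : z ∈ Sd) (hb : z ∉ bd c c' e t Sd) : 0 ≤ sur c c' e z := by
  classical
  unfold sur
  split_ifs with h
  · have h1 := t_le_of_kl S adm (t z) z hz h rfl
    have h2 := S.tS z hz
    have h3 := cc_le_two (e := e) S z
    by_contra h4
    apply hb
    rw [mem_bd]
    refine ⟨hz, by omega, by omega, h, by omega⟩
  · omega

lemma sur_pos (S : Sde c c' t V Sd) (adm : Adm c c' Sd e) {z : P}
    (hz : z ∈ Sd) (h3 : 3 ≤ t z) (he : 0 < e z) : 1 ≤ sur c c' e z := by
  classical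
  unfold sur
  split_ifs with h
  · have h1 := t_le_of_kl S adm (t z) z hz h rfl
    have h4 := cc_le_two (e := e) S z
    omega
  · omega

/-- an element which is killed from one element only -/
lemma kr_one {a y y' : P} (h : (kr c' e a).card = 1) (h1 : y ∈ kr c' e a) (h2 : y' ∈ kr c' e a) :
    y = y' := by
  rw [Finset.card_eq_one] at h
  obtain ⟨w, hw⟩ := h
  rw [hw, mem_singleton] at h1 h2
  exact h1.trans h2.symm

/-- the kills of an element with label one -/
lemma mem_kr_of (S : Sde c c' t V Sd) {y x : P} (hx : x ∈ c y) (h : e x < e y) : y ∈ kr c' e x :=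
  mem_kr.2 ⟨(S.dual y x).1 hx, h⟩

/-- an excited cover away from the window of an element of the side: the element is excited -/
lemma pos_of (S : Sde c c' t V Sd) (adm : Adm c c' Sd e) {z x : P} (hx : x ∈ Sd) (hz : x ∈ c z)
    (he : 0 < e z) : 0 < e x := by
  by_contra h
  obtain ⟨a, ha⟩ := S.ne x hx
  exact adm x hx ⟨⟨z, (S.dual z x).1 hz, by omega⟩, a, ha, by omega⟩

lemma site_mem (S : Sde c c' t V Sd) {x a : P} (hx : x ∈ Sd) (ht : t x = 1) (ha : a ∈ c x) : a ∈ V := by
  obtain ⟨h1, h2⟩ := S.cin x hx a ha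
  rcases h1 with h1 | h1
  · have := S.tS a h1
    omega
  · exact h1

lemma near_mem (S : Sde c c' t V Sd) {z x : P} (hz : z ∈ Sd) (ht : t z = 2) (hx : x ∈ c z) :
    x ∈ Sd ∧ t x = 1 := by
  obtain ⟨h1, h2⟩ := S.cin z hz x hx
  rcases h1 with h1 | h1
  · exact ⟨h1, by omega⟩
  · have := S.tV x h1
    omega

lemma far_mem (S : Sde c c' t V Sd) {y z : P} (hy : y ∈ Sd) (ht : t y = 1) (hz : z ∈ c' y) :
    z ∈ Sd ∧ t z = 2 ∧ y ∈ c z := by
  have h1 := S.cout y (Or.inl hy) z hz
  have h2 := (S.dual z y).2 hz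
  exact ⟨h1, by have := (S.cin z h1 y h2).2; omega, h2⟩

/-- the killing element above a bad element is over the bad element only -/
lemma single_of_bd (S : Sde c c' t V Sd) (adm : Adm c c' Sd e) (g : GN c t Sd e) {y z : P}
    (hy : y ∈ bd c c' e t Sd) (hz : z ∈ c' y) (hk : kl c e z) : c z = {y} ∧ 2 ≤ e z := by
  have hy2 := hy
  rw [mem_bd] at hy
  obtain ⟨hyS, ty, ey, ky, cy⟩ := hy
  obtain ⟨hzS, tz, hyz⟩ := far_mem S hyS ty hz
  have ez : 2 ≤ e z := t_le_of_kl S adm 2 z hzS hk tz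
  refine ⟨?_, ez⟩
  have hky : kd c' e y := ⟨z, hz, by omega⟩
  rw [Finset.eq_singleton_iff_unique_mem]
  refine ⟨hyz, fun y' hy' => ?_⟩
  by_contra hne
  obtain ⟨x, hx⟩ := g z hzS tz (by omega) y hyz y' hy' (cc_eq_two S cy).1
  rw [mem_inter] at hx
  have ex : e x < e y := not_gu_of_kd adm hyS hky x hx.1
  have ey' : 0 < e y' := pos_of S adm (near_mem S hzS tz hy').1 hy' (by omega)
  have h1 := (cc_eq_two S cy).2 x hx.1 ex
  exact hne (kr_one h1 (mem_kr_of S hx.2 (by omega)) (mem_kr_of S hx.1 ex))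

/-- the surplus of an excited element away from a bad one -/
lemma sur_away (S : Sde c c' t V Sd) (adm : Adm c c' Sd e) (g : GN c t Sd e) {y z : P}
    (hy : y ∈ bd c c' e t Sd) (hz : z ∈ c' y) (he : 0 < e z) :
    1 ≤ sur c c' e z ∧ (sur c c' e z = 1 → e z = 1 ∧ ¬ kl c e z) := by
  classical
  unfold sur
  split_ifs with h
  · obtain ⟨h1, h2⟩ := single_of_bd S adm g hy hz h
    have h3 : (kn c e z).card ≤ 1 := by
      refine (card_le_card (filter_subset _ _)).trans ?_
      rw [h1, card_singleton]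
    have h4 := so_le (c := c) (c' := c') (e := e) z
    have h5 : ¬ gu c e z := by
      rintro ⟨a, ha, hle⟩
      obtain ⟨b, hb, hlt⟩ := h
      rw [h1, mem_singleton] at ha hb
      subst ha
      subst hb
      omega
    unfold cc
    rw [if_neg h5]
    constructor
    · omega
    · intro h6
      omega
  · refine ⟨by omega, fun h6 => ⟨by omega, h⟩⟩

/-- two bad elements with a common excited cover away from the window: their common cover is
excited -/
lemma mid_of_bd (S : Sde c c' t V Sd) (adm : Adm c c' Sd e) (g : GN c t Sd e) {y y' z : P}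
    (hy : y ∈ bd c c' e t Sd) (hy' : y' ∈ bd c c' e t Sd) (hne : y ≠ y') (hz : z ∈ c' y)
    (hz' : z ∈ c' y') (he : 0 < e z) : ∃ x ∈ V, x ∈ c y ∧ x ∈ c y' ∧ 0 < e x := by
  rw [mem_bd] at hy hy'
  obtain ⟨hyS, ty, ey, ky, cy⟩ := hy
  obtain ⟨hyS', ty', ey', ky', cy'⟩ := hy'
  obtain ⟨hzS, tz, hyz⟩ := far_mem S hyS ty hz
  obtain ⟨-, -, hyz'⟩ := far_mem S hyS' ty' hz'
  obtain ⟨x, hx⟩ := g z hzS tz he y hyz y' hyz' (cc_eq_two S cy).1
  rw [mem_inter] at hx
  refine ⟨x, site_mem S hyS ty hx.1, hx.1, hx.2, ?_⟩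
  by_contra h
  have h1 := (cc_eq_two S cy).2 x hx.1 (by omega)
  exact hne (kr_one h1 (mem_kr_of S hx.1 (by omega)) (mem_kr_of S hx.2 (by omega)))

/-- the payment data -/
structure Pay (c c' : P → Finset P) (t : P → ℕ) (V Sd : Finset P) (e : P → ℕ) (f : P → P)
    (Z X : Finset P) : Prop where
  fz : ∀ y ∈ bd c c' e t Sd, f y ∈ c' y ∧ 0 < e (f y)
  zf : ∀ z, z ∈ Z ↔ ∃ y ∈ bd c c' e t Sd, f y = z
  xp : ∀ x ∈ X, x ∈ V ∧ 0 < e x ∧ ∃ y ∈ bd c c' e t Sd, ∃ y' ∈ bd c c' e t Sd, y ≠ y' ∧ f y = f y' ∧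
    c' x = {y, y'}
  cd : (bd c c' e t Sd).card = Z.card + X.card

/-- payment for the bad elements -/
theorem pay (S : Sde c c' t V Sd) (adm : Adm c c' Sd e) (g : GN c t Sd e)
    (hex : ∀ y ∈ bd c c' e t Sd, ∃ z ∈ c' y, 0 < e z) :
    ∃ (f : P → P) (Z X : Finset P), Pay c c' t V Sd e f Z X := by
  classical
  set B := bd c c' e t Sd with hB
  choose! f hf using hex
  set Z := B.image f with hZ
  set Z2 := Z.filter (fun z => 2 ≤ (B.filter (fun y => f y = z)).card) with hZ2
  have hpair : ∀ z ∈ Z2, ∃ y ∈ B, ∃ y' ∈ B, y ≠ y' ∧ f y = z ∧ f y' = z := by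
    intro z hz
    rw [hZ2, mem_filter] at hz
    have h1 : 1 < (B.filter (fun y => f y = z)).card := by omega
    rw [Finset.one_lt_card] at h1
    obtain ⟨y, hy, y', hy', hne⟩ := h1
    rw [mem_filter] at hy hy'
    exact ⟨y, hy.1, y', hy'.1, hne, hy.2, hy'.2⟩
  choose! q hg q' hg' hne hfg hfg' using hpair
  have hmid : ∀ z ∈ Z2, ∃ x ∈ V, x ∈ c (q z) ∧ x ∈ c (q' z) ∧ 0 < e x := by
    intro z hz
    have h1 := (hf (q z) (hg z hz)).1
    have h2 := (hf (q' z) (hg' z hz)).1
    have h3 := (hf (q z) (hg z hz)).2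
    rw [hfg z hz] at h1 h3
    rw [hfg' z hz] at h2
    exact mid_of_bd S adm g (hg z hz) (hg' z hz) (hne z hz) h1 h2 h3
  choose! m hmV hm hm' hme using hmid
  have hlow : ∀ z ∈ Z2, c' (m z) = {q z, q' z} := by
    intro z hz
    symm
    apply Finset.eq_of_subset_of_card_le
    · intro y hy
      rw [mem_insert, mem_singleton] at hy
      rcases hy with rfl | rfl
      · exact (S.dual _ _).1 (hm z hz)
      · exact (S.dual _ _).1 (hm' z hz)
    · rw [Finset.card_pair (hne z hz)]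
      exact S.c2' _
  have hinj : Set.InjOn m Z2 := by
    intro z hz z' hz' h
    have h1 := hlow z hz
    rw [h, hlow z' hz'] at h1
    have h2 : q z ∈ ({q z', q' z'} : Finset P) := by
      rw [h1]
      exact mem_insert_self _ _
    rw [mem_insert, mem_singleton] at h2
    rw [← hfg z hz]
    rcases h2 with h2 | h2
    · rw [h2]
      exact hfg z' hz'
    · rw [h2]
      exact hfg' z' hz'
  refine ⟨f, Z, Z2.image m, ⟨fun y hy => hf y hy, fun z => ?_, ?_, ?_⟩⟩
  · rw [hZ, mem_image]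
  · intro x hx
    rw [mem_image] at hx
    obtain ⟨z, hz, rfl⟩ := hx
    refine ⟨hmV z hz, hme z hz, q z, hg z hz, q' z, hg' z hz, hne z hz, ?_, hlow z hz⟩
    rw [hfg z hz, hfg' z hz]
  · rw [Finset.card_image_of_injOn hinj]
    have h1 : B.card = ∑ z ∈ Z, (B.filter (fun y => f y = z)).card :=
      Finset.card_eq_sum_card_image f B
    have h2 : ∀ z ∈ Z, (B.filter (fun y => f y = z)).card =
        1 + (if 2 ≤ (B.filter (fun y => f y = z)).card then 1 else 0) := by
      intro z hz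
      have h3 : B.filter (fun y => f y = z) ⊆ c z := by
        intro y hy
        rw [mem_filter] at hy
        have := (hf y hy.1).1
        rw [hy.2] at this
        exact (S.dual _ _).2 this
      have h4 := card_le_card h3
      have h6 := S.c2 z
      have h5 : 0 < (B.filter (fun y => f y = z)).card := by
        rw [card_pos]
        rw [hZ, mem_image] at hz
        obtain ⟨y, hy, hyz⟩ := hz
        exact ⟨y, mem_filter.2 ⟨hy, hyz⟩⟩
      split_ifs <;> omega
    rw [← hB, h1, Finset.sum_congr rfl h2, Finset.sum_add_distrib, Finset.sum_const, smul_eq_mul,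
      mul_one, ← Finset.card_filter]

section

variable {f : P → P} {Z X : Finset P}

lemma Pay.zS (S : Sde c c' t V Sd) (p : Pay c c' t V Sd e f Z X) {z : P} (hz : z ∈ Z) :
    z ∈ Sd ∧ t z = 2 ∧ 0 < e z ∧ ∃ y ∈ bd c c' e t Sd, f y = z ∧ z ∈ c' y ∧ y ∈ c z := by
  obtain ⟨y, hy, rfl⟩ := (p.zf z).1 hz
  have h1 := mem_bd.1 hy
  obtain ⟨h2, h3⟩ := p.fz y hy
  obtain ⟨h4, h5, h6⟩ := far_mem S h1.1 h1.2.1 h2
  exact ⟨h4, h5, h3, y, hy, rfl, h2, h6⟩

lemma Pay.bz (S : Sde c c' t V Sd) (p : Pay c c' t V Sd e f Z X) {z : P} (hz : z ∈ Z) :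
    z ∉ bd c c' e t Sd := by
  intro h
  have h1 := (mem_bd.1 h).2.1
  have h2 := (p.zS S hz).2.1
  omega

open Classical in
/-- the surplus after the payment -/
noncomputable def wp (c c' : P → Finset P) (t : P → ℕ) (Sd : Finset P) (e : P → ℕ) (Z : Finset P)
    (z : P) : ℤ :=
  sur c c' e z + (if z ∈ bd c c' e t Sd then 1 else 0) - (if z ∈ Z then 1 else 0)

lemma Pay.wp_nonneg (S : Sde c c' t V Sd) (adm : Adm c c' Sd e) (g : GN c t Sd e)
    (p : Pay c c' t V Sd e f Z X) {z : P} (hz : z ∈ Sd) : 0 ≤ wp c c' t Sd e Z z := by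
  classical
  unfold wp
  by_cases h1 : z ∈ Z
  · obtain ⟨-, -, h2, y, hy, -, h3, -⟩ := p.zS S h1
    have h4 := (sur_away S adm g hy h3 h2).1
    rw [if_neg (p.bz S h1), if_pos h1]
    omega
  · rw [if_neg h1]
    split_ifs with h2
    · have := sur_ge S adm hz
      omega
    · have := sur_nonneg S adm hz h2
      omega

/-- THE IDENTITY ON ONE SIDE -/
theorem Pay.identity (S : Sde c c' t V Sd) (adm : Adm c c' Sd e) (p : Pay c c' t V Sd e f Z X) :
    2 * kS c c' V Sd e + ∑ z ∈ Sd, wp c c' t Sd e Z z = ∑ z ∈ Sd, (e z : ℤ) + X.card := by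
  classical
  have h1 := sum_cc S adm
  have h2 : ∑ z ∈ Sd, sur c c' e z = ∑ z ∈ Sd, (e z : ℤ) - ∑ z ∈ KK c e Sd, cc c c' e z := by
    unfold sur KK
    rw [Finset.sum_sub_distrib, Finset.sum_filter]
  have h9 : Sd.filter (fun z => z ∈ Z) = Z := by
    ext z
    rw [mem_filter]
    exact ⟨fun h => h.2, fun h => ⟨(p.zS S h).1, h⟩⟩
  have h10 : Sd.filter (fun z => z ∈ bd c c' e t Sd) = bd c c' e t Sd := by
    ext z
    rw [mem_filter]
    exact ⟨fun h => h.2, fun h => ⟨(mem_bd.1 h).1, h⟩⟩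
  have h3 : ∑ z ∈ Sd, wp c c' t Sd e Z z = ∑ z ∈ Sd, sur c c' e z + (bd c c' e t Sd).card - Z.card := by
    unfold wp
    rw [Finset.sum_sub_distrib, Finset.sum_add_distrib, ← Finset.sum_filter, ← Finset.sum_filter,
      Finset.sum_const, Finset.sum_const, h9, h10]
    simp only [nsmul_eq_mul, mul_one]
  have h4 : ((bd c c' e t Sd).card : ℤ) = Z.card + X.card := by exact_mod_cast p.cd
  rw [h3, h2, h1, h4]
  unfold kS
  ring

end

end Pool.Agent.GaussPoset.Win.NF
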