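import Pool.Agent.W_448nf_h61.NA

/-!
MP_448cb3_co, G2, case B: the tight configurations of a natural part.  Both sides: the bound
`2 * surplus ≤ energy` for all cores and the data of a tight core.  helper61.
-/

namespace Pool.Agent.GaussPoset.Win.NF

set_option linter.unusedSectionVars false

open Finset
open Pool.Agent.GaussPoset.Win.W4 (Cf)
open Pool.Agent.GaussPoset.Win.SO (Sde Pen TD kS sum_cc kl_of_not_gu not_gu_of_kd so_le t_le_of_kl kn_le
  cc_le_two cc_eq_two)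
open Pool.Agent.GaussPoset.Win.I2 (kd gu kl kn kr so cc fr KK KD bd sur mem_kn mem_kr mem_so kd_iff
  kl_iff mem_bd)

universe u

variable {P : Type u} [Fintype P] [DecidableEq P]
variable {c c' : P → Finset P} {e : P → ℕ} {t t' : P → ℕ} {V Sd Sd' : Finset P}

/-- the excited doubles at distance one have a partner on the other side -/
def MT (c c' : P → Finset P) (t t' : P → ℕ) (Sd Sd' : Finset P) (e : P → ℕ) : Prop :=
  ∀ x ∈ Sd, t x = 1 → 0 < e x → (c x).card = 2 → ∃ y ∈ Sd', t' y = 1 ∧ c' y = c x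

/-- a core of a natural part -/
structure Nf (c c' : P → Finset P) (t t' : P → ℕ) (V Sd Sd' : Finset P) (e : P → ℕ) : Prop
    extends Cf c c' t t' V Sd Sd' e where
  g1 : GN c t Sd e
  g2 : GN c' t' Sd' e
  m1 : MT c c' t t' Sd Sd' e
  m2 : MT c' c t' t Sd' Sd e
  out : ∀ x, x ∉ Sd → x ∉ Sd' → x ∉ V → e x = 0

lemma Nf.symm (C : Nf c c' t t' V Sd Sd' e) : Nf c' c t' t V Sd' Sd e :=
  { C.toCf.symm with
    g1 := C.g2
    g2 := C.g1
    m1 := C.m2
    m2 := C.m1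
    out := fun x h1 h2 h3 => C.out x h2 h1 h3 }

open Classical in
lemma mem_KDV {a : P} : a ∈ KD c' e V ↔ a ∈ V ∧ kd c' e a := by
  unfold KD
  rw [mem_filter]

/-- a site which is killed from the first side is not killed from the second one -/
lemma Nf.nk (C : Nf c c' t t' V Sd Sd' e) {y a : P} (ha : a ∈ V) (hy : a ∈ c y) (h : e a < e y) :
    ∀ w ∈ c a, e w ≤ e a := by
  intro w hw
  by_contra h2
  exact disjoint_left.1 C.dis (mem_KDV.2 ⟨ha, y, (C.s1.dual y a).1 hy, h⟩)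
    (mem_KDV.2 ⟨ha, w, hw, by omega⟩)

/-- the bad elements of a core are touched -/
lemma Nf.touch (C : Nf c c' t t' V Sd Sd' e) : ∀ y ∈ bd c c' e t Sd, ∃ z ∈ c' y, 0 < e z := by
  intro y hy
  rw [mem_bd] at hy
  obtain ⟨hyS, ty, ey, ⟨a, ha, hlt⟩, cy⟩ := hy
  rcases C.core1 y hyS ty (by omega) with h | ⟨y', hy', ty', hc, -, u, hu, hu'⟩
  · exact h
  · exfalso
    have haV := site_mem C.s1 hyS ty ha
    have h1 := C.nk haV ha hlt
    have h2 : a ∈ c' y' := by rw [hc]; exact ha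
    have h3 : y' ∈ c a := (C.s1.dual a y').2 ((C.s2.dual y' a).1 h2 |> fun h => by
      have h4 := (C.s2.dual y' a).1 h2
      exact (C.s1.dual a y').1 h4)
    have h4 := h1 y' h3
    exact C.adm2 y' hy' ⟨⟨u, hu, by omega⟩, a, h2, by omega⟩

lemma dual2 (C : Nf c c' t t' V Sd Sd' e) {w x : P} (h : x ∈ c' w) : w ∈ c x :=
  (C.s2.dual w x).1 h

/-- the sites which pay for the second side: no excited double of the first side -/
lemma Nf.xd (C : Nf c c' t t' V Sd Sd' e) {f' : P → P} {Z' X' : Finset P}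
    (p' : Pay c' c t' V Sd' e f' Z' X') {x y : P} (hx : x ∈ X') (hy : y ∈ c' x)
    (h2 : (c y).card = 2) : e y = 0 := by
  by_contra hne
  obtain ⟨hxV, -, u, hu, u', hu', -, -, hcx⟩ := p'.xp x hx
  have hyS := C.s1.cout x (Or.inr hxV) y hy
  have hxy : x ∈ c y := (C.s1.dual y x).2 hy
  have ty : t y = 1 := by
    have h3 := (C.s1.cin y hyS x hxy).2
    have h4 := C.s1.tV x hxV
    omega
  obtain ⟨w, hw, tw, hc⟩ := C.m1 y hyS ty (by omega) h2
  have hwx : w ∈ c x := dual2 C (by rw [hc]; exact hxy)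
  rw [hcx, mem_insert, mem_singleton] at hwx
  have hb : w ∈ bd c' c e t' Sd' := by
    rcases hwx with rfl | rfl
    · exact hu
    · exact hu'
  rw [mem_bd] at hb
  obtain ⟨-, -, ew, ⟨v, hv, hlt⟩, -⟩ := hb
  have hv' : v ∈ c y := by rw [← hc]; exact hv
  have h5 := C.nk (site_mem C.s1 hyS ty hv') hv' (by omega) w (dual2 C hv)
  omega

lemma Nf.xx (C : Nf c c' t t' V Sd Sd' e) {f f' : P → P} {Z X Z' X' : Finset P}
    (p : Pay c c' t V Sd e f Z X) (p' : Pay c' c t' V Sd' e f' Z' X') : Disjoint X X' := by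
  rw [disjoint_left]
  intro x hx hx'
  obtain ⟨hxV, -, y, hy, y', hy', -, -, hcx⟩ := p.xp x hx
  have h1 := mem_bd.1 hy
  have h2 := C.xd p' hx' (y := y) (by rw [hcx]; simp) (cc_eq_two C.s1 h1.2.2.2.2).1
  omega

lemma Nf.energy (C : Nf c c' t t' V Sd Sd' e) :
    ∑ x, (e x : ℤ) = ∑ x ∈ Sd, (e x : ℤ) + ∑ x ∈ Sd', (e x : ℤ) + ∑ x ∈ V, (e x : ℤ) := by
  rw [← sum_union C.d3, ← sum_union]
  · symm
    apply sum_subset (subset_univ _)
    intro x _ hx
    rw [mem_union, mem_union] at hx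
    push Not at hx
    rw [C.out x hx.1.1 hx.1.2 hx.2]
    rfl
  · rw [disjoint_union_left]
    exact ⟨C.d1, C.d2⟩

open Classical in
/-- the excess of a site -/
noncomputable def vp2 (e : P → ℕ) (X X' : Finset P) (v : P) : ℤ :=
  (e v : ℤ) - (if v ∈ X ∪ X' then 1 else 0)

/-- THE IDENTITY -/
theorem Nf.identity (C : Nf c c' t t' V Sd Sd' e) {f f' : P → P} {Z X Z' X' : Finset P}
    (p : Pay c c' t V Sd e f Z X) (p' : Pay c' c t' V Sd' e f' Z' X') :
    2 * (kS c c' V Sd e + kS c' c V Sd' e) + (∑ z ∈ Sd, wp c c' t Sd e Z z +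
      ∑ z ∈ Sd', wp c' c t' Sd' e Z' z + ∑ v ∈ V, vp2 e X X' v) = ∑ x, (e x : ℤ) := by
  classical
  have h1 := p.identity C.s1 C.adm1
  have h2 := p'.identity C.s2 C.adm2
  have h3 : ∑ v ∈ V, vp2 e X X' v = ∑ v ∈ V, (e v : ℤ) - ((X.card : ℤ) + X'.card) := by
    unfold vp2
    rw [sum_sub_distrib, ← sum_filter]
    have h4 : V.filter (fun v => v ∈ X ∪ X') = X ∪ X' := by
      ext v
      rw [mem_filter]
      refine ⟨fun h => h.2, fun h => ⟨?_, h⟩⟩
      rcases mem_union.1 h with h | h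
      · exact (p.xp v h).1
      · exact (p'.xp v h).1
    rw [h4, sum_const, card_union_of_disjoint (C.xx p p')]
    simp
  rw [h3, C.energy]
  linarith

lemma vp2_nonneg {f f' : P → P} {Z X Z' X' : Finset P}
    (p : Pay c c' t V Sd e f Z X) (p' : Pay c' c t' V Sd' e f' Z' X') (v : P) :
    0 ≤ vp2 e X X' v := by
  classical
  unfold vp2
  split_ifs with h
  · rcases mem_union.1 h with h | h
    · have := (p.xp v h).2.1
      omega
    · have := (p'.xp v h).2.1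
      omega
  · omega

/-- THE BOUND -/
theorem Nf.bound (C : Nf c c' t t' V Sd Sd' e) :
    2 * (kS c c' V Sd e + kS c' c V Sd' e) ≤ ∑ x, (e x : ℤ) := by
  obtain ⟨f, Z, X, p⟩ := pay C.s1 C.adm1 C.g1 C.touch
  obtain ⟨f', Z', X', p'⟩ := pay C.s2 C.adm2 C.g2 C.symm.touch
  rw [← C.identity p p']
  have h1 : 0 ≤ ∑ z ∈ Sd, wp c c' t Sd e Z z :=
    sum_nonneg fun z hz => p.wp_nonneg C.s1 C.adm1 C.g1 hz
  have h2 : 0 ≤ ∑ z ∈ Sd', wp c' c t' Sd' e Z' z :=
    sum_nonneg fun z hz => p'.wp_nonneg C.s2 C.adm2 C.g2 hz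
  have h3 : 0 ≤ ∑ v ∈ V, vp2 e X X' v := sum_nonneg fun v _ => vp2_nonneg p p' v
  omega

/-- the data of a tight core -/
structure Tg (c c' : P → Finset P) (t t' : P → ℕ) (V Sd Sd' : Finset P) (e : P → ℕ)
    (f : P → P) (Z X : Finset P) (f' : P → P) (Z' X' : Finset P) : Prop
    extends Nf c c' t t' V Sd Sd' e where
  p : Pay c c' t V Sd e f Z X
  p' : Pay c' c t' V Sd' e f' Z' X'
  w1 : ∀ z ∈ Sd, z ∉ bd c c' e t Sd → z ∉ Z → sur c c' e z = 0
  w1' : ∀ z ∈ Sd', z ∉ bd c' c e t' Sd' → z ∉ Z' → sur c' c e z = 0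
  w2 : ∀ z ∈ Z, e z = 1
  w2' : ∀ z ∈ Z', e z = 1
  ev : ∀ v ∈ V, 0 < e v → e v = 1 ∧ (v ∈ X ∨ v ∈ X')

variable {f f' : P → P} {Z X Z' X' : Finset P}

lemma Tg.symm (T : Tg c c' t t' V Sd Sd' e f Z X f' Z' X') :
    Tg c' c t' t V Sd' Sd e f' Z' X' f Z X :=
  { T.toNf.symm with
    p := T.p'
    p' := T.p
    w1 := T.w1'
    w1' := T.w1
    w2 := T.w2'
    w2' := T.w2
    ev := fun v hv h => ⟨(T.ev v hv h).1, (T.ev v hv h).2.symm⟩ }

theorem Nf.tight (C : Nf c c' t t' V Sd Sd' e)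
    (h : ∑ x, (e x : ℤ) ≤ 2 * (kS c c' V Sd e + kS c' c V Sd' e)) :
    ∃ (f : P → P) (Z X : Finset P) (f' : P → P) (Z' X' : Finset P),
      Tg c c' t t' V Sd Sd' e f Z X f' Z' X' := by
  classical
  obtain ⟨f, Z, X, p⟩ := pay C.s1 C.adm1 C.g1 C.touch
  obtain ⟨f', Z', X', p'⟩ := pay C.s2 C.adm2 C.g2 C.symm.touch
  rw [← C.identity p p'] at h
  have n1 : ∀ z ∈ Sd, 0 ≤ wp c c' t Sd e Z z := fun z hz => p.wp_nonneg C.s1 C.adm1 C.g1 hz
  have n2 : ∀ z ∈ Sd', 0 ≤ wp c' c t' Sd' e Z' z := fun z hz => p'.wp_nonneg C.s2 C.adm2 C.g2 hz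
  have n3 : ∀ v ∈ V, 0 ≤ vp2 e X X' v := fun v _ => vp2_nonneg p p' v
  have h1 := sum_nonneg n1
  have h2 := sum_nonneg n2
  have h3 := sum_nonneg n3
  have z1 : ∀ z ∈ Sd, wp c c' t Sd e Z z = 0 := (sum_eq_zero_iff_of_nonneg n1).1 (by omega)
  have z2 : ∀ z ∈ Sd', wp c' c t' Sd' e Z' z = 0 := (sum_eq_zero_iff_of_nonneg n2).1 (by omega)
  have z3 : ∀ v ∈ V, vp2 e X X' v = 0 := (sum_eq_zero_iff_of_nonneg n3).1 (by omega)
  refine ⟨f, Z, X, f', Z', X', { C with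
    p := p, p' := p', w1 := ?_, w1' := ?_, w2 := ?_, w2' := ?_, ev := ?_ }⟩
  · intro z hz h4 h5
    have h6 := z1 z hz
    unfold wp at h6
    rw [if_neg h4, if_neg h5] at h6
    omega
  · intro z hz h4 h5
    have h6 := z2 z hz
    unfold wp at h6
    rw [if_neg h4, if_neg h5] at h6
    omega
  · intro z hz
    obtain ⟨q1, q2, q3, y, hy, -, q4, -⟩ := p.zS C.s1 hz
    have h6 := z1 z q1
    unfold wp at h6
    rw [if_neg (p.bz C.s1 hz), if_pos hz] at h6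
    exact ((sur_away C.s1 C.adm1 C.g1 hy q4 q3).2 (by omega)).1
  · intro z hz
    obtain ⟨q1, q2, q3, y, hy, -, q4, -⟩ := p'.zS C.s2 hz
    have h6 := z2 z q1
    unfold wp at h6
    rw [if_neg (p'.bz C.s2 hz), if_pos hz] at h6
    exact ((sur_away C.s2 C.adm2 C.g2 hy q4 q3).2 (by omega)).1
  · intro v hv hp
    have h6 := z3 v hv
    unfold vp2 at h6
    split_ifs at h6 with h7
    · exact ⟨by omega, mem_union.1 h7⟩
    · omega

end Pool.Agent.GaussPoset.Win.NF
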