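import Pool.Agent.W_448nf_h61.NB

/-!
MP_448cb3_co, G2, case B: the items of a tight core: pendants, T-elements in the two forms.  helper61.
-/

namespace Pool.Agent.GaussPoset.Win.NF

set_option linter.unusedSectionVars false

open Finset
open Pool.Agent.GaussPoset.Win.W4 (Cf)
open Pool.Agent.GaussPoset.Win.SO (Sde Pen TD kS sum_cc kl_of_not_gu not_gu_of_kd so_le t_le_of_kl kn_le
  cc_le_two cc_eq_two)
open Pool.Agent.GaussPoset.Win.I2 (kd gu kl kn kr so cc fr KK KD bd sur mem_kn mem_kr mem_so kd_iff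
  kl_iff mem_bd)

universe u

variable {P : Type u} [Fintype P] [DecidableEq P]
variable {c c' : P → Finset P} {e : P → ℕ} {t t' : P → ℕ} {V Sd Sd' : Finset P}
variable {f f' : P → P} {Z X Z' X' : Finset P}

/-- form A of a T-element -/
structure ItA (c c' : P → Finset P) (t : P → ℕ) (Sd : Finset P) (e : P → ℕ) (z x x' s : P) : Prop where
  T : TD c t Sd z x x' s
  ez : e z = 2
  ex : e x = 1
  ex' : e x' = 1
  sx : ∀ a ∈ c x, e a = 0
  sx' : ∀ a ∈ c x', e a = 0
  kx : ∀ z' ∈ c' x, 1 < e z' → z' = z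
  kx' : ∀ z' ∈ c' x', 1 < e z' → z' = z

/-- form B of a T-element -/
structure ItB (c c' : P → Finset P) (t : P → ℕ) (Sd : Finset P) (e : P → ℕ) (z x x' s : P) : Prop where
  T : TD c t Sd z x x' s
  ez : e z = 1
  ex : e x = 1
  ex' : e x' = 1
  es : e s = 1
  sx : ∀ a ∈ c x, a ≠ s → e a = 0
  sx' : ∀ a ∈ c x', a ≠ s → e a = 0

/-- an excited pendant -/
structure ItP (c c' : P → Finset P) (t : P → ℕ) (Sd : Finset P) (e : P → ℕ) (z y : P) : Prop where
  pen : Pen c t Sd z y
  ez : e z = 1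
  ey : e y = 1
  sy : ∀ a ∈ c y, e a = 0

lemma Tg.far (T : Tg c c' t t' V Sd Sd' e f Z X f' Z' X') {z : P} (hz : z ∈ Sd) (h3 : 3 ≤ t z) :
    e z = 0 := by
  by_contra h
  have h1 := sur_pos T.s1 T.adm1 hz h3 (by omega)
  have h2 := T.w1 z hz (fun h => by have := (mem_bd.1 h).2.1; omega)
    (fun h => by have := (T.p.zS T.s1 h).2.1; omega)
  omega

/-- a killer with a single cover has charge at most zero -/
lemma cc_single {w : P} (h1 : (c w).card = 1) (h : kl c e w) : cc c c' e w ≤ 0 := by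
  classical
  obtain ⟨a, ha⟩ := Finset.card_eq_one.1 h1
  have h3 : (kn c e w).card ≤ 1 := by
    rw [← h1]
    exact card_le_card (filter_subset _ _)
  have h4 := so_le (c := c) (c' := c') (e := e) w
  have h5 : ¬ gu c e w := by
    rintro ⟨x, hx, hle⟩
    obtain ⟨b, hb, hlt⟩ := h
    rw [ha, mem_singleton] at hx hb
    subst hx
    subst hb
    omega
  unfold cc
  rw [if_neg h5]
  omega

lemma Tg.near (T : Tg c c' t t' V Sd Sd' e f Z X f' Z' X') {x : P} (hx : x ∈ Sd) (tx : t x = 1)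
    (he : 0 < e x) : kl c e x ∧ (c x).card = 2 ∧
      (x ∈ bd c c' e t Sd ∨ (x ∉ bd c c' e t Sd ∧ (e x : ℤ) = cc c c' e x)) := by
  classical
  by_cases hb : x ∈ bd c c' e t Sd
  · have h1 := mem_bd.1 hb
    exact ⟨h1.2.2.2.1, (cc_eq_two T.s1 h1.2.2.2.2).1, Or.inl hb⟩
  · have h1 := T.w1 x hx hb (fun h => by have := (T.p.zS T.s1 h).2.1; omega)
    unfold sur at h1
    split_ifs at h1 with h2
    · have h3 := T.s1.c2 x
      have h4 := card_pos.2 (T.s1.ne x hx)
      refine ⟨h2, ?_, Or.inr ⟨hb, by omega⟩⟩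
      by_contra h5
      have h6 := cc_single (c := c) (c' := c') (e := e) (w := x) (by omega) h2
      omega
    · omega

lemma Tg.two (T : Tg c c' t t' V Sd Sd' e f Z X f' Z' X') {z : P} (hz : z ∈ Sd) (tz : t z = 2)
    (he : 0 < e z) : (z ∈ Z ∧ e z = 1) ∨ (z ∉ Z ∧ e z = 2 ∧ kl c e z ∧ cc c c' e z = 2) := by
  classical
  by_cases hZ : z ∈ Z
  · exact Or.inl ⟨hZ, T.w2 z hZ⟩
  · right
    have h1 := T.w1 z hz (fun h => by have := (mem_bd.1 h).2.1; omega) hZ
    unfold sur at h1
    split_ifs at h1 with h2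
    · have h3 := cc_le_two (e := e) T.s1 z
      have h4 := t_le_of_kl T.s1 T.adm1 2 z hz h2 tz
      exact ⟨hZ, by omega, h2, by omega⟩
    · omega

/-- the elements which kill twice -/
lemma Tg.kill2 (T : Tg c c' t t' V Sd Sd' e f Z X f' Z' X') {x y s : P} (hb : x ∈ bd c c' e t Sd)
    (hs : s ∈ c x) (hy : s ∈ c y) (hne : x ≠ y) (h0 : e s = 0) : e y = 0 := by
  by_contra h
  have h1 := mem_bd.1 hb
  have h2 := (cc_eq_two T.s1 h1.2.2.2.2).2 s hs (by omega)
  exact hne (kr_one h2 (mem_kr_of T.s1 hs (by omega)) (mem_kr_of T.s1 hy (by omega)))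

/-- type A -/
theorem Tg.typA (T : Tg c c' t t' V Sd Sd' e f Z X f' Z' X') {z : P} (hz : z ∈ Sd) (tz : t z = 2)
    (ez : e z = 2) (kz : kl c e z) (cz : cc c c' e z = 2) :
    ∃ x x' s, ItA c c' t Sd e z x x' s ∧ x ∉ bd c c' e t Sd ∧ x' ∉ bd c c' e t Sd := by
  classical
  obtain ⟨h2, hk⟩ := cc_eq_two T.s1 cz
  obtain ⟨x, hx, hlt⟩ := kz
  obtain ⟨x', hx', hne⟩ : ∃ w ∈ c z, w ≠ x := Finset.exists_mem_ne (by omega) x
  have hcz : c z = {x, x'} := by
    symm
    apply Finset.eq_of_subset_of_card_le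
    · intro y hy
      rw [mem_insert, mem_singleton] at hy
      rcases hy with rfl | rfl
      · exact hx
      · exact hx'
    · rw [Finset.card_pair hne.symm, h2]
  obtain ⟨xS, tx⟩ := near_mem T.s1 hz tz hx
  obtain ⟨xS', tx'⟩ := near_mem T.s1 hz tz hx'
  have px := pos_of T.s1 T.adm1 xS hx (by omega)
  have px' := pos_of T.s1 T.adm1 xS' hx' (by omega)
  have ex : e x = 1 := by omega
  have kdx : kd c' e x := ⟨z, (T.s1.dual z x).1 hx, by omega⟩
  have sx : ∀ a ∈ c x, e a = 0 := by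
    intro a ha
    have := not_gu_of_kd T.adm1 xS kdx a ha
    omega
  obtain ⟨klx, cx, hbx⟩ := T.near xS tx px
  obtain ⟨klx', cx', hbx'⟩ := T.near xS' tx' px'
  obtain ⟨s, hs⟩ := T.g1 z hz tz (by omega) x hx x' hx' cx
  rw [mem_inter] at hs
  have hs0 := sx s hs.1
  have nb : x ∉ bd c c' e t Sd := by
    intro hb
    have := T.kill2 hb hs.1 hs.2 hne.symm hs0
    omega
  have nb' : x' ∉ bd c c' e t Sd := by
    intro hb
    have := T.kill2 hb hs.2 hs.1 hne hs0
    omega
  have ex' : e x' = 1 := by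
    by_contra h
    rcases hbx' with h3 | ⟨-, h3⟩
    · exact nb' h3
    · have h4 := cc_le_two (e := e) T.s1 x'
      have h5 := (cc_eq_two T.s1 (z := x') (e := e) (by omega)).2 s hs.2 (by omega)
      exact hne (kr_one h5 (mem_kr_of T.s1 hs.2 (by omega)) (mem_kr_of T.s1 hs.1 (by omega)))
  have kdx' : kd c' e x' := ⟨z, (T.s1.dual z x').1 hx', by omega⟩
  have sx' : ∀ a ∈ c x', e a = 0 := by
    intro a ha
    have := not_gu_of_kd T.adm1 xS' kdx' a ha
    omega
  -- exactly one common site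
  have hcc : cc c c' e x = 1 := by
    rcases hbx with h3 | ⟨-, h3⟩
    · exact absurd h3 nb
    · omega
  have only : ∀ v, v ∈ c x → v ∈ c x' → v = s := by
    intro v hv hv'
    by_contra hvs
    have h3 : so c c' e x = ∅ := by
      rw [eq_empty_iff_forall_notMem]
      intro a ha
      rw [mem_so] at ha
      have h4 : a ∈ c x' := by
        have h5 : c x = {s, v} := by
          symm
          apply Finset.eq_of_subset_of_card_le
          · intro y hy
            rw [mem_insert, mem_singleton] at hy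
            rcases hy with rfl | rfl
            · exact hs.1
            · exact hv
          · rw [Finset.card_pair (Ne.symm hvs), cx]
        have h6 := ha.1.1
        rw [h5, mem_insert, mem_singleton] at h6
        rcases h6 with rfl | rfl
        · exact hs.2
        · exact hv'
      have h7 := sx' a h4
      exact hne (kr_one ha.2 (mem_kr_of T.s1 h4 (by omega)) (mem_kr_of T.s1 ha.1.1 (by omega)))
    have h4 : ¬ gu c e x := by
      rintro ⟨a, ha, hle⟩
      have := sx a ha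
      omega
    unfold cc at hcc
    rw [h3, if_neg h4, card_empty] at hcc
    have := kn_le (e := e) T.s1 x
    omega
  refine ⟨x, x', s, ⟨⟨hz, tz, hcz, hne.symm, cx, cx', hs.1, hs.2, only⟩, ez, ex, ex', sx, sx', ?_, ?_⟩,
    nb, nb'⟩
  · intro z' hz' h3
    have h4 := hk x hx (by omega)
    exact kr_one h4 (mem_kr.2 ⟨hz', by omega⟩) (mem_kr_of T.s1 hx (by omega))
  · intro z' hz' h3
    have h4 := hk x' hx' (by omega)
    exact kr_one h4 (mem_kr.2 ⟨hz', by omega⟩) (mem_kr_of T.s1 hx' (by omega))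

/-- an excited site over an excited double of the first side is a payer of the first side -/
lemma Tg.site (T : Tg c c' t t' V Sd Sd' e f Z X f' Z' X') {y a : P} (hy : y ∈ Sd) (ty : t y = 1)
    (ey : 0 < e y) (ha : a ∈ c y) (h : 0 < e a) : e a = 1 ∧ a ∈ X := by
  have haV := site_mem T.s1 hy ty ha
  obtain ⟨h1, h2⟩ := T.ev a haV h
  refine ⟨h1, ?_⟩
  rcases h2 with h2 | h2
  · exact h2
  · exfalso
    have h3 := T.toNf.xd T.p' h2 ((T.s1.dual y a).1 ha) (T.near hy ty ey).2.1
    omega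

/-- the payers -/
theorem Tg.typZ (T : Tg c c' t t' V Sd Sd' e f Z X f' Z' X') {z : P} (hz : z ∈ Z) :
    (∃ y, ItP c c' t Sd e z y ∧ y ∈ bd c c' e t Sd ∧ f y = z) ∨
    (∃ x x' s, ItB c c' t Sd e z x x' s ∧ x ∈ bd c c' e t Sd ∧ x' ∈ bd c c' e t Sd ∧ f x = z ∧
      f x' = z ∧ s ∈ X) := by
  classical
  obtain ⟨zS, tz, hz0, y, hy, fy, hzy, hyz⟩ := T.p.zS T.s1 hz
  have ez := T.w2 z hz
  obtain ⟨yS, ty, ey, ky, cy⟩ := mem_bd.1 hy
  obtain ⟨cy2, hk⟩ := cc_eq_two T.s1 cy
  have hc2 := T.s1.c2 z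
  by_cases h1 : (c z).card = 1
  · left
    obtain ⟨y0, hy0⟩ := card_eq_one.1 h1
    have hyy : y = y0 := by rw [hy0, mem_singleton] at hyz; exact hyz
    rw [← hyy] at hy0
    refine ⟨y, ⟨⟨zS, tz, hy0, cy2⟩, ez, ey, ?_⟩, hy, fy⟩
    intro a ha
    by_contra hne
    obtain ⟨-, haX⟩ := T.site yS ty (by omega) ha (by omega)
    obtain ⟨-, -, y1, hy1, y2, hy2, h12, hf, hca⟩ := T.p.xp a haX
    have h3 : y ∈ c' a := (T.s1.dual y a).1 ha
    rw [hca, mem_insert, mem_singleton] at h3
    have h4 : f y1 = z ∧ f y2 = z := by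
      rcases h3 with h3 | h3
      · rw [h3] at fy; exact ⟨fy, by rw [← hf]; exact fy⟩
      · rw [h3] at fy; exact ⟨by rw [hf]; exact fy, fy⟩
    have h5 : y1 ∈ c z := by
      rw [← h4.1]
      have := (T.p.fz y1 hy1).1
      exact (T.s1.dual _ _).2 this
    have h6 : y2 ∈ c z := by
      rw [← h4.2]
      have := (T.p.fz y2 hy2).1
      exact (T.s1.dual _ _).2 this
    rw [hy0, mem_singleton] at h5 h6
    exact h12 (h5.trans h6.symm)
  · right
    obtain ⟨y', hy', hne⟩ : ∃ w ∈ c z, w ≠ y := by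
      apply Finset.exists_mem_ne
      have := card_pos.2 ⟨y, hyz⟩
      omega
    have hcz : c z = {y, y'} := by
      symm
      apply Finset.eq_of_subset_of_card_le
      · intro w hw
        rw [mem_insert, mem_singleton] at hw
        rcases hw with rfl | rfl
        · exact hyz
        · exact hy'
      · rw [Finset.card_pair hne.symm]
        exact hc2
    obtain ⟨yS', ty'⟩ := near_mem T.s1 zS tz hy'
    have py' := pos_of T.s1 T.adm1 yS' hy' hz0
    obtain ⟨s, hs⟩ := T.g1 z zS tz hz0 y hyz y' hy' cy2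
    rw [mem_inter] at hs
    have hs0 : 0 < e s := by
      by_contra h
      have := T.kill2 hy hs.1 hs.2 hne.symm (by omega)
      omega
    obtain ⟨es, hsX⟩ := T.site yS ty (by omega) hs.1 hs0
    obtain ⟨-, -, y1, hy1, y2, hy2, h12, hf, hca⟩ := T.p.xp s hsX
    have h3 : y ∈ c' s := (T.s1.dual y s).1 hs.1
    have h3' : y' ∈ c' s := (T.s1.dual y' s).1 hs.2
    rw [hca, mem_insert, mem_singleton] at h3 h3'
    have h4 : f y1 = z ∧ f y2 = z := by
      rcases h3 with h3 | h3
      · rw [h3] at fy; exact ⟨fy, by rw [← hf]; exact fy⟩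
      · rw [h3] at fy; exact ⟨by rw [hf]; exact fy, fy⟩
    have hb' : y' ∈ bd c c' e t Sd ∧ f y' = z := by
      rcases h3' with h3' | h3'
      · rw [h3']; exact ⟨hy1, h4.1⟩
      · rw [h3']; exact ⟨hy2, h4.2⟩
    obtain ⟨-, -, ey', ky', cy'⟩ := mem_bd.1 hb'.1
    obtain ⟨cy2', hk'⟩ := cc_eq_two T.s1 cy'
    -- the other sites
    have key : ∀ {u u' : P}, u ∈ Sd → t u = 1 → 0 < e u → u ∈ bd c c' e t Sd → f u = z → c z = {u, u'} →
        ∀ a ∈ c u, 0 < e a → a ∈ c u' := by
      intro u u' uS tu eu ub fu hcz' a ha h0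
      obtain ⟨-, haX⟩ := T.site uS tu eu ha h0
      obtain ⟨-, -, w1, hw1, w2, hw2, hw12, hfw, hcw⟩ := T.p.xp a haX
      have g3 : u ∈ c' a := (T.s1.dual u a).1 ha
      rw [hcw, mem_insert, mem_singleton] at g3
      have g4 : f w1 = z ∧ f w2 = z := by
        rcases g3 with g3 | g3
        · rw [g3] at fu; exact ⟨fu, by rw [← hfw]; exact fu⟩
        · rw [g3] at fu; exact ⟨by rw [hfw]; exact fu, fu⟩
      have g5 : w1 ∈ c z := by
        rw [← g4.1]
        exact (T.s1.dual _ _).2 (T.p.fz w1 hw1).1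
      have g6 : w2 ∈ c z := by
        rw [← g4.2]
        exact (T.s1.dual _ _).2 (T.p.fz w2 hw2).1
      rw [hcz', mem_insert, mem_singleton] at g5 g6
      have g7 : w1 ∈ c' a := by rw [hcw]; simp
      have g8 : w2 ∈ c' a := by rw [hcw]; simp
      rcases g5 with g5 | g5
      · rcases g6 with g6 | g6
        · exact absurd (g5.trans g6.symm) hw12
        · rw [g6] at g8
          exact (T.s1.dual _ _).2 g8
      · rw [g5] at g7
        exact (T.s1.dual _ _).2 g7
    -- one site of y is not excited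
    have only : ∀ v, v ∈ c y → v ∈ c y' → v = s := by
      intro v hv hv'
      by_contra hvs
      have hcy : c y = {s, v} := by
        symm
        apply Finset.eq_of_subset_of_card_le
        · intro w hw
          rw [mem_insert, mem_singleton] at hw
          rcases hw with rfl | rfl
          · exact hs.1
          · exact hv
        · rw [Finset.card_pair (Ne.symm hvs), cy2]
      obtain ⟨a, ha, hlt⟩ := ky
      rw [hcy, mem_insert, mem_singleton] at ha
      rcases ha with rfl | rfl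
      · omega
      · have := T.kill2 hy hv hv' hne.symm (by omega)
        omega
    refine ⟨y, y', s, ⟨⟨zS, tz, hcz, hne.symm, cy2, cy2', hs.1, hs.2, only⟩, ez, ey, ey', es, ?_, ?_⟩,
      hy, hb'.1, fy, hb'.2, hsX⟩
    · intro a ha has
      by_contra h0
      exact has (only a ha (key yS ty (by omega) hy fy hcz a ha (by omega)))
    · intro a ha has
      by_contra h0
      refine has (only a (key yS' ty' py' hb'.1 hb'.2 (by rw [hcz, pair_comm]) a ha (by omega)) ha)

end Pool.Agent.GaussPoset.Win.NF
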