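import Pool.Agent.W_448nf_h61.NC

/-!
MP_448cb3_co, G2, case B: the items of a tight core do not meet.  helper61.
-/

namespace Pool.Agent.GaussPoset.Win.NF

set_option linter.unusedSectionVars false

open Finset
open Pool.Agent.GaussPoset.Win.W4 (Cf)
open Pool.Agent.GaussPoset.Win.SO (Sde Pen TD kS sum_cc kl_of_not_gu not_gu_of_kd so_le t_le_of_kl kn_le
  cc_le_two cc_eq_two)
open Pool.Agent.GaussPoset.Win.I2 (kd gu kl kn kr so cc fr KK KD bd sur mem_kn mem_kr mem_so kd_iff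
  kl_iff mem_bd)

universe u

variable {P : Type u} [Fintype P] [DecidableEq P]
variable {c c' : P → Finset P} {e : P → ℕ} {t t' : P → ℕ} {V Sd Sd' : Finset P}
variable {f f' : P → P} {Z X Z' X' : Finset P}

lemma Tg.exX (T : Tg c c' t t' V Sd Sd' e f Z X f' Z' X') {a x : P} (ha : a ∈ X) (hx : x ∈ c' a) :
    x ∈ bd c c' e t Sd ∧ e x = 1 := by
  obtain ⟨-, -, y1, hy1, y2, hy2, h12, hf, hca⟩ := T.p.xp a ha
  rw [hca, mem_insert, mem_singleton] at hx
  rcases hx with rfl | rfl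
  · exact ⟨hy1, (mem_bd.1 hy1).2.2.1⟩
  · exact ⟨hy2, (mem_bd.1 hy2).2.2.1⟩

/-- every excited element at distance one is touched -/
lemma Tg.touch1 (T : Tg c c' t t' V Sd Sd' e f Z X f' Z' X') {x : P} (hx : x ∈ Sd) (tx : t x = 1)
    (he : 0 < e x) : ∃ z ∈ c' x, 0 < e z := by
  rcases T.core1 x hx tx he with h | ⟨y, hy, ty, hc, -, u, hu, hu'⟩
  · exact h
  · exfalso
    obtain ⟨a, ha, hlt⟩ := (T.near hx tx he).1
    have haV := site_mem T.s1 hx tx ha
    have h2 : a ∈ c' y := by rw [hc]; exact ha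
    have h1 := T.toNf.nk haV ha hlt y (dual2 T.toNf h2)
    have h3 : e u ≤ e y := by
      by_contra h
      exact T.adm2 y hy ⟨⟨u, hu, by omega⟩, a, h2, h1⟩
    obtain ⟨-, h4⟩ := T.site hx tx he ha (by omega)
    have h5 := (T.exX h4 ((T.s1.dual x a).1 ha)).2
    omega

lemma Tg.badZ (T : Tg c c' t t' V Sd Sd' e f Z X f' Z' X') {z : P} (hz : z ∈ Z) :
    ∀ y ∈ c z, y ∈ bd c c' e t Sd ∧ f y = z := by
  intro y hy
  rcases T.typZ hz with ⟨y0, h1, h2, h3⟩ | ⟨x, x', s, h1, h2, h3, h4, h5, -⟩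
  · rw [h1.pen.cp, mem_singleton] at hy
    rw [hy]
    exact ⟨h2, h3⟩
  · rw [h1.T.cw, mem_insert, mem_singleton] at hy
    rcases hy with rfl | rfl
    · exact ⟨h2, h4⟩
    · exact ⟨h3, h5⟩

/-- the excited elements at distance two -/
theorem Tg.kind (T : Tg c c' t t' V Sd Sd' e f Z X f' Z' X') {z : P} (hz : z ∈ Sd) (tz : t z = 2)
    (he : 0 < e z) : (∃ y, ItP c c' t Sd e z y) ∨ (∃ x x' s, ItA c c' t Sd e z x x' s) ∨
      (∃ x x' s, ItB c c' t Sd e z x x' s) := by
  rcases T.two hz tz he with ⟨h1, -⟩ | ⟨h1, h2, h3, h4⟩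
  · rcases T.typZ h1 with ⟨y, h5, -⟩ | ⟨x, x', s, h5, -⟩
    · exact Or.inl ⟨y, h5⟩
    · exact Or.inr (Or.inr ⟨x, x', s, h5⟩)
  · obtain ⟨x, x', s, h5, -⟩ := T.typA hz tz h2 h3 h4
    exact Or.inr (Or.inl ⟨x, x', s, h5⟩)

/-- uniqueness of the toucher -/
theorem Tg.uniq (T : Tg c c' t t' V Sd Sd' e f Z X f' Z' X') {x z z' : P} (hx : x ∈ Sd)
    (tx : t x = 1) (hz : z ∈ c' x) (hz' : z' ∈ c' x) (he : 0 < e z) (he' : 0 < e z') : z = z' := by
  obtain ⟨zS, tz, xz⟩ := far_mem T.s1 hx tx hz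
  obtain ⟨zS', tz', xz'⟩ := far_mem T.s1 hx tx hz'
  have key : ∀ {w : P}, w ∈ Sd → t w = 2 → x ∈ c w → w ∉ Z → e w = 2 → kl c e w → cc c c' e w = 2 →
      x ∉ bd c c' e t Sd ∧ ∀ w' ∈ c' x, 1 < e w' → w' = w := by
    intro w hw tw xw hZ h2 h3 h4
    obtain ⟨x1, x2, s, h5, h6, h7⟩ := T.typA hw tw h2 h3 h4
    rw [h5.T.cw, mem_insert, mem_singleton] at xw
    rcases xw with rfl | rfl
    · exact ⟨h6, h5.kx⟩
    · exact ⟨h7, h5.kx'⟩
  rcases T.two zS tz he with ⟨h1, -⟩ | ⟨h1, h2, h3, h4⟩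
  · rcases T.two zS' tz' he' with ⟨g1, -⟩ | ⟨g1, g2, g3, g4⟩
    · have k1 := (T.badZ h1 x xz).2
      have k2 := (T.badZ g1 x xz').2
      exact k1.symm.trans k2
    · exact absurd (T.badZ h1 x xz).1 (key zS' tz' xz' g1 g2 g3 g4).1
  · rcases T.two zS' tz' he' with ⟨g1, -⟩ | ⟨g1, g2, g3, g4⟩
    · exact absurd (T.badZ g1 x xz').1 (key zS tz xz h1 h2 h3 h4).1
    · exact ((key zS tz xz h1 h2 h3 h4).2 z' hz' (by omega)).symm

/-- two excited elements with a common site -/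
theorem Tg.meet (T : Tg c c' t t' V Sd Sd' e f Z X f' Z' X') {x x' s : P} (hx : x ∈ Sd)
    (tx : t x = 1) (hx' : x' ∈ Sd) (tx' : t x' = 1) (hne : x ≠ x') (he : 0 < e x) (he' : 0 < e x')
    (hs : s ∈ c x) (hs' : s ∈ c x') : ∃ z ∈ Sd, t z = 2 ∧ 0 < e z ∧ x ∈ c z ∧ x' ∈ c z := by
  classical
  rcases Nat.eq_zero_or_pos (e s) with h0 | h0
  · have nb : x ∉ bd c c' e t Sd := fun hb => by
      have := T.kill2 hb hs hs' hne h0
      omega
    obtain ⟨z, hz, ez⟩ := T.touch1 hx tx he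
    obtain ⟨zS, tz, xz⟩ := far_mem T.s1 hx tx hz
    refine ⟨z, zS, tz, ez, xz, ?_⟩
    rcases T.two zS tz ez with ⟨h1, -⟩ | ⟨h1, h2, h3, h4⟩
    · exact absurd (T.badZ h1 x xz).1 nb
    · obtain ⟨x1, x2, s0, h5, h6, h7⟩ := T.typA zS tz h2 h3 h4
      -- the other cover `y` of `z`
      obtain ⟨y, hy, hyx, hsx, hsy, ex, sx, ey⟩ : ∃ y ∈ c z, y ≠ x ∧ s0 ∈ c x ∧ s0 ∈ c y ∧ e x = 1 ∧
          (∀ a ∈ c x, e a = 0) ∧ e y = 1 := by
        have h8 := xz
        rw [h5.T.cw, mem_insert, mem_singleton] at h8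
        rcases h8 with rfl | rfl
        · exact ⟨x2, by rw [h5.T.cw]; simp, h5.T.ne.symm, h5.T.sx, h5.T.sx', h5.ex, h5.sx, h5.ex'⟩
        · exact ⟨x1, by rw [h5.T.cw]; simp, h5.T.ne, h5.T.sx', h5.T.sx, h5.ex', h5.sx', h5.ex⟩
      have hcc : cc c c' e x = 1 := by
        rcases (T.near hx tx he).2.2 with h | ⟨-, h⟩
        · exact absurd h nb
        · omega
      have h9 : ¬ gu c e x := by
        rintro ⟨a, ha, hle⟩
        have := sx a ha
        omega
      have h10 : 0 < (so c c' e x).card := by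
        unfold cc at hcc
        rw [if_neg h9] at hcc
        have := kn_le (e := e) T.s1 x
        omega
      obtain ⟨a, ha⟩ := card_pos.1 h10
      rw [mem_so] at ha
      have as : a ≠ s := by
        rintro rfl
        exact hne (kr_one ha.2 (mem_kr_of T.s1 hs (by omega)) (mem_kr_of T.s1 hs' (by omega)))
      have as0 : a ≠ s0 := by
        rintro rfl
        exact hyx (kr_one ha.2 (mem_kr_of T.s1 hsy (by have := sx a hsx; omega))
          (mem_kr_of T.s1 hsx (by have := sx a hsx; omega)))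
      have hss : s = s0 := by
        by_contra h
        have h11 : ({a, s, s0} : Finset P) ⊆ c x := by
          intro w hw
          rw [mem_insert, mem_insert, mem_singleton] at hw
          rcases hw with rfl | rfl | rfl
          · exact ha.1.1
          · exact hs
          · exact hsx
        have h12 := card_le_card h11
        rw [card_insert_of_notMem, card_pair h] at h12
        · have := T.s1.c2 x
          omega
        · rw [mem_insert, mem_singleton]
          tauto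
      subst hss
      by_contra hxz
      have hyx' : y ≠ x' := by
        rintro rfl
        exact hxz hy
      have h11 : ({x, x', y} : Finset P) ⊆ c' s := by
        intro w hw
        rw [mem_insert, mem_insert, mem_singleton] at hw
        rcases hw with rfl | rfl | rfl
        · exact (T.s1.dual _ _).1 hs
        · exact (T.s1.dual _ _).1 hs'
        · exact (T.s1.dual _ _).1 hsy
      have h12 := card_le_card h11
      rw [card_insert_of_notMem, card_pair hyx'.symm] at h12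
      · have := T.s1.c2' s
        omega
      · rw [mem_insert, mem_singleton]
        rintro (h | h)
        · exact hne h
        · exact hyx h.symm
  · obtain ⟨-, hsX⟩ := T.site hx tx he hs h0
    obtain ⟨-, -, y1, hy1, y2, hy2, h12, hf, hca⟩ := T.p.xp s hsX
    obtain ⟨q1, q2⟩ := T.p.fz y1 hy1
    obtain ⟨g1, g2, g3⟩ := far_mem T.s1 (mem_bd.1 hy1).1 (mem_bd.1 hy1).2.1 q1
    have g4 : y2 ∈ c (f y1) := by
      rw [hf]
      exact (T.s1.dual _ _).2 (T.p.fz y2 hy2).1
    have k1 : x ∈ c' s := (T.s1.dual _ _).1 hs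
    have k2 : x' ∈ c' s := (T.s1.dual _ _).1 hs'
    rw [hca, mem_insert, mem_singleton] at k1 k2
    refine ⟨f y1, g1, g2, q2, ?_, ?_⟩
    · rcases k1 with rfl | rfl
      · exact g3
      · exact g4
    · rcases k2 with rfl | rfl
      · exact g3
      · exact g4

/-- excited elements of the two sides have no common site -/
theorem Tg.cross (T : Tg c c' t t' V Sd Sd' e f Z X f' Z' X') {x u : P} (hx : x ∈ Sd)
    (tx : t x = 1) (hu : u ∈ Sd') (tu : t' u = 1) (he : 0 < e x) (he' : 0 < e u) :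
    Disjoint (c x) (c' u) := by
  rw [disjoint_left]
  intro s hs hs'
  have hsV := site_mem T.s1 hx tx hs
  rcases Nat.eq_zero_or_pos (e s) with h0 | h0
  · have := T.toNf.nk hsV hs (by omega) u (dual2 T.toNf hs')
    omega
  · obtain ⟨-, h1⟩ := T.site hx tx he hs h0
    obtain ⟨-, h2⟩ := T.symm.site hu tu he' hs' h0
    exact disjoint_left.1 (T.toNf.xx T.p T.p') h1 h2

/-- the excited sites -/
theorem Tg.exV (T : Tg c c' t t' V Sd Sd' e f Z X f' Z' X') {v : P} (hv : v ∈ V) (h : 0 < e v) :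
    e v = 1 ∧ ((∃ z x x', ItB c c' t Sd e z x x' v) ∨ (∃ z x x', ItB c' c t' Sd' e z x x' v)) := by
  have key : ∀ {c c' : P → Finset P} {t t' : P → ℕ} {Sd Sd' : Finset P} {f f' : P → P}
      {Z X Z' X' : Finset P} (_ : Tg c c' t t' V Sd Sd' e f Z X f' Z' X'), v ∈ X →
      ∃ z x x', ItB c c' t Sd e z x x' v := by
    intro c c' t t' Sd Sd' f f' Z X Z' X' T hvX
    obtain ⟨-, -, y1, hy1, y2, hy2, h12, hf, hca⟩ := T.p.xp v hvX
    have g1 : y1 ∈ c (f y1) := (T.s1.dual _ _).2 (T.p.fz y1 hy1).1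
    have g4 : y2 ∈ c (f y1) := by
      rw [hf]
      exact (T.s1.dual _ _).2 (T.p.fz y2 hy2).1
    have k1 : v ∈ c y1 := (T.s1.dual _ _).2 (by rw [hca]; simp)
    have k2 : v ∈ c y2 := (T.s1.dual _ _).2 (by rw [hca]; simp)
    rcases T.typZ ((T.p.zf _).2 ⟨y1, hy1, rfl⟩) with ⟨y, h1, -⟩ | ⟨x, x', s, h1, -⟩
    · rw [h1.pen.cp, mem_singleton] at g1 g4
      exact absurd (g1.trans g4.symm) h12
    · have h2 : v = s := by
        rw [h1.T.cw, mem_insert, mem_singleton] at g1 g4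
        rcases g1 with g1 | g1
        · rcases g4 with g4 | g4
          · exact absurd (g1.trans g4.symm) h12
          · rw [g1] at k1
            rw [g4] at k2
            exact h1.T.only v k1 k2
        · rcases g4 with g4 | g4
          · rw [g1] at k1
            rw [g4] at k2
            exact h1.T.only v k2 k1
          · exact absurd (g1.trans g4.symm) h12
      rw [h2]
      exact ⟨_, x, x', h1⟩
  obtain ⟨h1, h2⟩ := T.ev v hv h
  refine ⟨h1, ?_⟩
  rcases h2 with h2 | h2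
  · exact Or.inl (key T h2)
  · exact Or.inr (key T.symm h2)

end Pool.Agent.GaussPoset.Win.NF
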