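import Pool.Agent.W_448nf_h61.ND

/-!
MP_448cb3_co, G2, case B: the toggle of a T-element of a tight core, abstract form.  helper61.
-/

namespace Pool.Agent.GaussPoset.Win.NF

set_option linter.unusedSectionVars false

open Finset
open Pool.Agent.GaussPoset.Win.W4 (Cf)
open Pool.Agent.GaussPoset.Win.SO (Sde Pen TD kS)
open Pool.Agent.GaussPoset.Win.I2 (kd gu kl kn kr so cc fr KK KD bd sur mem_kn mem_kr mem_so kd_iff
  kl_iff mem_bd)

universe u

variable {P : Type u} [DecidableEq P]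
variable {c c' : P → Finset P} {e e' : P → ℕ} {t t' : P → ℕ} {V Sd Sd' : Finset P}
variable {f f' : P → P} {Z X Z' X' : Finset P}

/-- the two sides of a window -/
structure Sd2 (c c' : P → Finset P) (t t' : P → ℕ) (V Sd Sd' : Finset P) : Prop where
  s1 : Sde c c' t V Sd
  s2 : Sde c' c t' V Sd'
  d1 : Disjoint Sd V
  d2 : Disjoint Sd' V
  d3 : Disjoint Sd Sd'

lemma Sd2.symm (S : Sd2 c c' t t' V Sd Sd') : Sd2 c' c t' t V Sd' Sd :=
  ⟨S.s2, S.s1, S.d2, S.d1, S.d3.symm⟩

/-- the toggle condition, the labels of `z` and `s` do not matter -/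
structure TogC (c c' : P → Finset P) (t : P → ℕ) (V Sd : Finset P) (e : P → ℕ) (z x x' s : P) :
    Prop where
  T : TD c t Sd z x x' s
  sV : s ∈ V
  ex : e x = 1
  ex' : e x' = 1
  z0 : ∀ w ∈ c' z, e w = 0
  x0 : ∀ w ∈ c' x, w ≠ z → e w = 0
  x0' : ∀ w ∈ c' x', w ≠ z → e w = 0
  s0 : c' s = {x, x'}
  u0 : ∀ u ∈ c s, e u = 0
  v0 : ∀ v ∈ c x, v ≠ s → e v = 0
  v0' : ∀ v ∈ c x', v ≠ s → e v = 0

section

variable [Fintype P]

lemma TogC.mk' (T : Tg c c' t t' V Sd Sd' e f Z X f' Z' X') {z x x' s : P} (D : TD c t Sd z x x' s)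
    (hz : 0 < e z) (ex : e x = 1) (ex' : e x' = 1) (v0 : ∀ v ∈ c x, v ≠ s → e v = 0)
    (v0' : ∀ v ∈ c x', v ≠ s → e v = 0) : TogC c c' t V Sd e z x x' s := by
  have hxz : x ∈ c z := by rw [D.cw]; simp
  have hxz' : x' ∈ c z := by rw [D.cw]; simp
  obtain ⟨xS, tx⟩ := near_mem T.s1 D.m D.tw hxz
  obtain ⟨xS', tx'⟩ := near_mem T.s1 D.m D.tw hxz'
  refine ⟨D, site_mem T.s1 xS tx D.sx, ex, ex', ?_, ?_, ?_, ?_, ?_, v0, v0'⟩
  · intro w hw
    have h1 := T.s1.cout z (Or.inl D.m) w hw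
    have h2 := (T.s1.cin w h1 z ((T.s1.dual w z).2 hw)).2
    exact T.far h1 (by rw [h2, D.tw])
  · intro w hw hne
    by_contra h
    exact hne (T.uniq xS tx hw ((T.s1.dual z x).1 hxz) (by omega) hz)
  · intro w hw hne
    by_contra h
    exact hne (T.uniq xS' tx' hw ((T.s1.dual z x').1 hxz') (by omega) hz)
  · symm
    apply Finset.eq_of_subset_of_card_le
    · intro y hy
      rw [mem_insert, mem_singleton] at hy
      rcases hy with rfl | rfl
      · exact (T.s1.dual _ _).1 D.sx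
      · exact (T.s1.dual _ _).1 D.sx'
    · rw [Finset.card_pair D.ne]
      exact T.s1.c2' _
  · intro u hu
    by_contra h
    have hsV := site_mem T.s1 xS tx D.sx
    have h1 := T.s2.cout s (Or.inr hsV) u hu
    have h2 : s ∈ c' u := (T.s1.dual s u).1 hu
    have h3 := (T.s2.cin u h1 s h2).2
    have h4 := T.s2.tV s hsV
    exact disjoint_left.1 (T.cross xS tx h1 (by omega) (by omega) (by omega)) D.sx h2

lemma ItA.tog (T : Tg c c' t t' V Sd Sd' e f Z X f' Z' X') {z x x' s : P}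
    (h : ItA c c' t Sd e z x x' s) : TogC c c' t V Sd e z x x' s :=
  TogC.mk' T h.T (by have := h.ez; omega) h.ex h.ex' (fun v hv _ => h.sx v hv)
    (fun v hv _ => h.sx' v hv)

lemma ItB.tog (T : Tg c c' t t' V Sd Sd' e f Z X f' Z' X') {z x x' s : P}
    (h : ItB c c' t Sd e z x x' s) : TogC c c' t V Sd e z x x' s :=
  TogC.mk' T h.T (by have := h.ez; omega) h.ex h.ex' h.sx h.sx'

end

/-- the two forms: `e` is of form A at `z`, `e'` of form B -/
structure AB (e e' : P → ℕ) (z s : P) : Prop where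
  z1 : e z = 2
  s1 : e s = 0
  z2 : e' z = 1
  s2 : e' s = 1
  eq : ∀ y, y ≠ z → y ≠ s → e' y = e y

section ab

variable {z x x' s : P} (S : Sd2 c c' t t' V Sd Sd') (T : TogC c c' t V Sd e z x x' s)

include S T

lemma TogC.xS : (x ∈ Sd ∧ t x = 1) ∧ (x' ∈ Sd ∧ t x' = 1) :=
  ⟨near_mem S.s1 T.T.m T.T.tw (by rw [T.T.cw]; simp), near_mem S.s1 T.T.m T.T.tw (by rw [T.T.cw]; simp)⟩

lemma TogC.notV : x ≠ s ∧ x' ≠ s ∧ z ≠ s ∧ x ≠ z ∧ x' ≠ z := by
  obtain ⟨⟨h1, h2⟩, h3, h4⟩ := T.xS S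
  have h5 := T.T.tw
  have h6 := S.s1.tV s T.sV
  refine ⟨?_, ?_, ?_, ?_, ?_⟩
  · rintro rfl; omega
  · rintro rfl; omega
  · rintro rfl; omega
  · rintro rfl; omega
  · rintro rfl; omega

/-- elements of the side which are not `z`, and their labels -/
lemma TogC.congr (h : ∀ y, y ≠ z → y ≠ s → e' y = e y) : TogC c c' t V Sd e' z x x' s := by
  obtain ⟨⟨xS, tx⟩, xS', tx'⟩ := T.xS S
  obtain ⟨n1, n2, n3, n4, n5⟩ := T.notV S
  have hn : ∀ w ∈ Sd, w ≠ s := by
    rintro w hw rfl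
    exact disjoint_left.1 S.d1 hw T.sV
  have hv : ∀ v ∈ V, v ≠ z := by
    rintro v hv rfl
    exact disjoint_left.1 S.d1 T.T.m hv
  refine ⟨T.T, T.sV, ?_, ?_, ?_, ?_, ?_, T.s0, ?_, ?_, ?_⟩
  · rw [h x n4 n1]; exact T.ex
  · rw [h x' n5 n2]; exact T.ex'
  · intro w hw
    have h1 := S.s1.cout z (Or.inl T.T.m) w hw
    have h2 := (S.s1.cin w h1 z ((S.s1.dual w z).2 hw)).2
    rw [h w (by rintro rfl; omega) (hn w h1)]
    exact T.z0 w hw
  · intro w hw hne
    rw [h w hne (hn w (far_mem S.s1 xS tx hw).1)]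
    exact T.x0 w hw hne
  · intro w hw hne
    rw [h w hne (hn w (far_mem S.s1 xS' tx' hw).1)]
    exact T.x0' w hw hne
  · intro u hu
    have h1 := S.s2.cout s (Or.inr T.sV) u hu
    rw [h u (by rintro rfl; exact disjoint_left.1 S.d3 T.T.m h1)
      (by rintro rfl; exact disjoint_left.1 S.d2 h1 T.sV)]
    exact T.u0 u hu
  · intro v hv' hne
    rw [h v (hv v (site_mem S.s1 xS tx hv')) hne]
    exact T.v0 v hv' hne
  · intro v hv' hne
    rw [h v (hv v (site_mem S.s1 xS' tx' hv')) hne]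
    exact T.v0' v hv' hne

variable (B : AB e e' z s)

include B

lemma kdA_z : ¬ kd c' e z := by
  rintro ⟨w, hw, hlt⟩
  have := T.z0 w hw
  omega

lemma kdB_z : ¬ kd c' e' z := by
  rintro ⟨w, hw, hlt⟩
  have := (T.congr S B.eq).z0 w hw
  omega

lemma guA_z : ¬ gu c e z := by
  rintro ⟨a, ha, hle⟩
  rw [T.T.cw, mem_insert, mem_singleton] at ha
  have h1 := T.ex
  have h2 := T.ex'
  have h3 := B.z1
  rcases ha with rfl | rfl <;> omega

lemma guB_z : gu c e' z := by
  refine ⟨x, by rw [T.T.cw]; simp, ?_⟩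
  rw [B.z2, (T.congr S B.eq).ex]

lemma kdA_x : kd c' e x ∧ kd c' e x' := by
  have h3 := B.z1
  refine ⟨⟨z, (S.s1.dual z x).1 (by rw [T.T.cw]; simp), ?_⟩,
    ⟨z, (S.s1.dual z x').1 (by rw [T.T.cw]; simp), ?_⟩⟩
  · rw [T.ex, h3]; omega
  · rw [T.ex', h3]; omega

lemma kdB_x : ¬ kd c' e' x ∧ ¬ kd c' e' x' := by
  have T2 := T.congr S B.eq
  constructor
  · rintro ⟨w, hw, hlt⟩
    rw [T2.ex] at hlt
    by_cases h : w = z
    · rw [h, B.z2] at hlt
      omega
    · have := T2.x0 w hw h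
      omega
  · rintro ⟨w, hw, hlt⟩
    rw [T2.ex'] at hlt
    by_cases h : w = z
    · rw [h, B.z2] at hlt
      omega
    · have := T2.x0' w hw h
      omega

lemma guA_x : ¬ gu c e x ∧ ¬ gu c e x' := by
  constructor
  · rintro ⟨a, ha, hle⟩
    rw [T.ex] at hle
    by_cases h : a = s
    · rw [h, B.s1] at hle
      omega
    · have := T.v0 a ha h
      omega
  · rintro ⟨a, ha, hle⟩
    rw [T.ex'] at hle
    by_cases h : a = s
    · rw [h, B.s1] at hle
      omega
    · have := T.v0' a ha h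
      omega

lemma guB_x : gu c e' x ∧ gu c e' x' := by
  have T2 := T.congr S B.eq
  exact ⟨⟨s, T.T.sx, by rw [T2.ex, B.s2]⟩, ⟨s, T.T.sx', by rw [T2.ex', B.s2]⟩⟩

lemma kdA_s : kd c' e s := by
  refine ⟨x, by rw [T.s0]; simp, ?_⟩
  rw [B.s1, T.ex]
  omega

lemma kdB_s : ¬ kd c' e' s := by
  have T2 := T.congr S B.eq
  rintro ⟨w, hw, hlt⟩
  rw [T.s0, mem_insert, mem_singleton] at hw
  rw [B.s2] at hlt
  rcases hw with rfl | rfl
  · have := T2.ex; omega
  · have := T2.ex'; omega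

/-- killed elements of the first side -/
lemma kd_iff1 {a : P} (ha : a ∈ Sd ∨ a ∈ V) (h1 : a ≠ x) (h2 : a ≠ x') (h3 : a ≠ s) :
    kd c' e' a ↔ kd c' e a := by
  by_cases hz : a = z
  · subst hz
    exact ⟨fun h => absurd h (kdB_z S T B), fun h => absurd h (kdA_z S T B)⟩
  · have h4 : ∀ w ∈ c' a, e' w = e w := by
      intro w hw
      have h5 := S.s1.cout a ha w hw
      refine B.eq w ?_ ?_
      · rintro rfl
        have h6 := (S.s1.dual w a).2 hw
        rw [T.T.cw, mem_insert, mem_singleton] at h6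
        tauto
      · rintro rfl
        exact disjoint_left.1 S.d1 h5 T.sV
    unfold kd
    rw [B.eq a hz h3]
    constructor
    · rintro ⟨w, hw, hlt⟩
      exact ⟨w, hw, by rw [← h4 w hw]; exact hlt⟩
    · rintro ⟨w, hw, hlt⟩
      exact ⟨w, hw, by rw [h4 w hw]; exact hlt⟩

/-- guarded elements of the first side -/
lemma gu_iff1 {a : P} (ha : a ∈ Sd) (h1 : a ≠ x) (h2 : a ≠ x') (hz : a ≠ z) :
    gu c e' a ↔ gu c e a := by
  have h3 : a ≠ s := by
    rintro rfl
    exact disjoint_left.1 S.d1 ha T.sV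
  by_cases hza : z ∈ c a
  · have h4 : e a = 0 := T.z0 a ((S.s1.dual a z).1 hza)
    have h5 : e' a = 0 := by rw [B.eq a hz h3, h4]
    exact ⟨fun _ => ⟨z, hza, by omega⟩, fun _ => ⟨z, hza, by omega⟩⟩
  · have h4 : ∀ w ∈ c a, e' w = e w := by
      intro w hw
      refine B.eq w ?_ ?_
      · rintro rfl
        exact hza hw
      · rintro rfl
        have h6 := (S.s1.dual a w).1 hw
        rw [T.s0, mem_insert, mem_singleton] at h6
        tauto
    unfold gu
    rw [B.eq a hz h3]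
    constructor
    · rintro ⟨w, hw, hlt⟩
      exact ⟨w, hw, by rw [← h4 w hw]; exact hlt⟩
    · rintro ⟨w, hw, hlt⟩
      exact ⟨w, hw, by rw [h4 w hw]; exact hlt⟩

/-- killed elements of the second side -/
lemma kd_iff2 {u : P} (hu : u ∈ Sd' ∨ u ∈ V) : kd c e' u ↔ kd c e u := by
  have hz : u ≠ z := by
    rintro rfl
    rcases hu with h | h
    · exact disjoint_left.1 S.d3 T.T.m h
    · exact disjoint_left.1 S.d1 T.T.m h
  by_cases hs : u = s
  · subst hs
    constructor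
    · rintro ⟨w, hw, hlt⟩
      have := (T.congr S B.eq).u0 w hw
      omega
    · rintro ⟨w, hw, hlt⟩
      have := T.u0 w hw
      omega
  · have h4 : ∀ w ∈ c u, e' w = e w := by
      intro w hw
      have h5 := S.s2.cout u hu w hw
      refine B.eq w ?_ ?_
      · rintro rfl
        exact disjoint_left.1 S.d3 T.T.m h5
      · rintro rfl
        exact disjoint_left.1 S.d2 h5 T.sV
    unfold kd
    rw [B.eq u hz hs]
    constructor
    · rintro ⟨w, hw, hlt⟩
      exact ⟨w, hw, by rw [← h4 w hw]; exact hlt⟩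
    · rintro ⟨w, hw, hlt⟩
      exact ⟨w, hw, by rw [h4 w hw]; exact hlt⟩

/-- guarded elements of the second side -/
lemma gu_iff2 {u : P} (hu : u ∈ Sd') : gu c' e' u ↔ gu c' e u := by
  have hz : u ≠ z := by
    rintro rfl
    exact disjoint_left.1 S.d3 T.T.m hu
  have hs : u ≠ s := by
    rintro rfl
    exact disjoint_left.1 S.d2 hu T.sV
  by_cases hus : s ∈ c' u
  · have h4 : e u = 0 := T.u0 u ((S.s1.dual s u).2 hus)
    have h5 : e' u = 0 := by rw [B.eq u hz hs, h4]
    exact ⟨fun _ => ⟨s, hus, by omega⟩, fun _ => ⟨s, hus, by omega⟩⟩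
  · have h4 : ∀ w ∈ c' u, e' w = e w := by
      intro w hw
      refine B.eq w ?_ ?_
      · rintro rfl
        rcases (S.s2.cin u hu w hw).1 with h6 | h6
        · exact disjoint_left.1 S.d3 T.T.m h6
        · exact disjoint_left.1 S.d1 T.T.m h6
      · rintro rfl
        exact hus hw
    unfold gu
    rw [B.eq u hz hs]
    constructor
    · rintro ⟨w, hw, hlt⟩
      exact ⟨w, hw, by rw [← h4 w hw]; exact hlt⟩
    · rintro ⟨w, hw, hlt⟩
      exact ⟨w, hw, by rw [h4 w hw]; exact hlt⟩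

/-- ADMISSIBILITY is the same in both forms -/
theorem adm_iff : (Adm c c' Sd e' ↔ Adm c c' Sd e) ∧ (Adm c' c Sd' e' ↔ Adm c' c Sd' e) := by
  constructor
  · constructor
    · intro h a ha
      by_cases h1 : a = x
      · subst h1; exact fun h2 => (guA_x S T B).1 h2.2
      by_cases h2 : a = x'
      · subst h2; exact fun h2 => (guA_x S T B).2 h2.2
      by_cases h3 : a = z
      · subst h3; exact fun h2 => kdA_z S T B h2.1
      have h4 : a ≠ s := by
        rintro rfl
        exact disjoint_left.1 S.d1 ha T.sV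
      rw [← kd_iff1 S T B (Or.inl ha) h1 h2 h4, ← gu_iff1 S T B ha h1 h2 h3]
      exact h a ha
    · intro h a ha
      by_cases h1 : a = x
      · subst h1; exact fun h2 => (kdB_x S T B).1 h2.1
      by_cases h2 : a = x'
      · subst h2; exact fun h2 => (kdB_x S T B).2 h2.1
      by_cases h3 : a = z
      · subst h3; exact fun h2 => kdB_z S T B h2.1
      have h4 : a ≠ s := by
        rintro rfl
        exact disjoint_left.1 S.d1 ha T.sV
      rw [kd_iff1 S T B (Or.inl ha) h1 h2 h4, gu_iff1 S T B ha h1 h2 h3]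
      exact h a ha
  · constructor
    · intro h a ha
      rw [← kd_iff2 S T B (Or.inl ha), ← gu_iff2 S T B ha]
      exact h a ha
    · intro h a ha
      rw [kd_iff2 S T B (Or.inl ha), gu_iff2 S T B ha]
      exact h a ha

/-- the killed sites from the first side -/
theorem KDV1 : s ∉ KD c' e' V ∧ KD c' e V = insert s (KD c' e' V) := by
  classical
  refine ⟨fun h => kdB_s S T B (mem_filter.1 h).2, ?_⟩
  ext a
  unfold KD
  rw [mem_insert, mem_filter, mem_filter]
  by_cases h : a = s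
  · subst h
    exact ⟨fun _ => Or.inl rfl, fun _ => ⟨T.sV, kdA_s S T B⟩⟩
  · constructor
    · rintro ⟨h1, h2⟩
      refine Or.inr ⟨h1, (kd_iff1 S T B (Or.inr h1) ?_ ?_ h).2 h2⟩
      · rintro rfl
        exact disjoint_left.1 S.d1 (T.xS S).1.1 h1
      · rintro rfl
        exact disjoint_left.1 S.d1 (T.xS S).2.1 h1
    · rintro (h0 | ⟨h1, h2⟩)
      · exact absurd h0 h
      · refine ⟨h1, (kd_iff1 S T B (Or.inr h1) ?_ ?_ h).1 h2⟩
        · rintro rfl
          exact disjoint_left.1 S.d1 (T.xS S).1.1 h1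
        · rintro rfl
          exact disjoint_left.1 S.d1 (T.xS S).2.1 h1

/-- the killed sites from the second side -/
theorem KDV2 : KD c e' V = KD c e V ∧ s ∉ KD c e V := by
  classical
  constructor
  · unfold KD
    refine filter_congr fun a ha => ?_
    exact kd_iff2 S T B (Or.inr ha)
  · intro h
    obtain ⟨w, hw, hlt⟩ := (mem_filter.1 h).2
    have := T.u0 w hw
    omega

theorem KDS1 : (KD c' e Sd).card = (KD c' e' Sd).card + 2 := by
  classical
  have h1 : KD c' e Sd = KD c' e' Sd ∪ {x, x'} := by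
    ext a
    unfold KD
    rw [mem_union, mem_filter, mem_filter, mem_insert, mem_singleton]
    by_cases h : a = x
    · subst h
      exact ⟨fun _ => Or.inr (Or.inl rfl), fun _ => ⟨(T.xS S).1.1, (kdA_x S T B).1⟩⟩
    by_cases h' : a = x'
    · subst h'
      exact ⟨fun _ => Or.inr (Or.inr rfl), fun _ => ⟨(T.xS S).2.1, (kdA_x S T B).2⟩⟩
    constructor
    · rintro ⟨h1, h2⟩
      refine Or.inl ⟨h1, (kd_iff1 S T B (Or.inl h1) h h' ?_).2 h2⟩
      rintro rfl
      exact disjoint_left.1 S.d1 h1 T.sV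
    · rintro (⟨h1, h2⟩ | h0)
      · refine ⟨h1, (kd_iff1 S T B (Or.inl h1) h h' ?_).1 h2⟩
        rintro rfl
        exact disjoint_left.1 S.d1 h1 T.sV
      · tauto
  rw [h1, card_union_of_disjoint, card_pair T.T.ne]
  rw [disjoint_left]
  intro a ha ha'
  rw [mem_insert, mem_singleton] at ha'
  have h2 := (mem_filter.1 ha).2
  rcases ha' with rfl | rfl
  · exact (kdB_x S T B).1 h2
  · exact (kdB_x S T B).2 h2

theorem KDS2 : KD c e' Sd' = KD c e Sd' := by
  classical
  unfold KD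
  exact filter_congr fun a ha => kd_iff2 S T B (Or.inl ha)

theorem FR1 : (fr c c' e Sd).card = (fr c c' e' Sd).card + 1 := by
  classical
  have h0 : z ∉ fr c c' e' Sd := by
    unfold fr
    rw [mem_filter]
    rintro ⟨-, -, h⟩
    exact h (guB_z S T B)
  rw [← card_insert_of_notMem h0]
  congr 1
  ext a
  unfold fr
  rw [mem_insert, mem_filter, mem_filter]
  by_cases h : a = z
  · subst h
    exact ⟨fun _ => Or.inl rfl, fun _ => ⟨T.T.m, kdA_z S T B, guA_z S T B⟩⟩
  by_cases h1 : a = x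
  · subst h1
    constructor
    · rintro ⟨-, h2, -⟩
      exact absurd (kdA_x S T B).1 h2
    · rintro (h2 | ⟨-, -, h2⟩)
      · exact absurd h2 h
      · exact absurd (guB_x S T B).1 h2
  by_cases h1' : a = x'
  · subst h1'
    constructor
    · rintro ⟨-, h2, -⟩
      exact absurd (kdA_x S T B).2 h2
    · rintro (h2 | ⟨-, -, h2⟩)
      · exact absurd h2 h
      · exact absurd (guB_x S T B).2 h2
  constructor
  · rintro ⟨h2, h3, h4⟩
    have h5 : a ≠ s := by
      rintro rfl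
      exact disjoint_left.1 S.d1 h2 T.sV
    exact Or.inr ⟨h2, fun g => h3 ((kd_iff1 S T B (Or.inl h2) h1 h1' h5).1 g),
      fun g => h4 ((gu_iff1 S T B h2 h1 h1' h).1 g)⟩
  · rintro (h2 | ⟨h2, h3, h4⟩)
    · exact absurd h2 h
    · have h5 : a ≠ s := by
        rintro rfl
        exact disjoint_left.1 S.d1 h2 T.sV
      exact ⟨h2, fun g => h3 ((kd_iff1 S T B (Or.inl h2) h1 h1' h5).2 g),
        fun g => h4 ((gu_iff1 S T B h2 h1 h1' h).2 g)⟩

theorem FR2 : fr c' c e' Sd' = fr c' c e Sd' := by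
  classical
  unfold fr
  refine filter_congr fun a ha => ?_
  rw [kd_iff2 S T B (Or.inl ha), gu_iff2 S T B ha]

end ab

end Pool.Agent.GaussPoset.Win.NF
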