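import Pool.Agent.W_448nf_h61.NE

/-!
MP_448cb3_co, G2, case B: the cores of a natural part: the bound and the tight cores.  helper61.
-/

namespace Pool.Agent.GaussPoset.Win.NF

set_option linter.unusedSectionVars false

open Finset
open Pool.Agent.GaussPoset.Win.W4 (Cf Nat4 mem_of_pos Z4 T4 P4 mem_Z4 mem_T4 mem_P4 up_two dn_two cS
  mem_cS ZC_coresK ZC_subK JK_dvd)
open Pool.Agent.GaussPoset.Win.SO (Sde Pen TD kS tL tU sde_low sde_up kS_sum cheap_of PN mem_PN pen_low
  pen_up)
open Pool.Agent.GaussPoset.Win.I2 (kd gu kl kn kr so cc fr KK KD bd sur lS uS mem_lS mem_uS kd_dc kd_uc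
  gu_uc gu_dc adm_low adm_up KD_low KD_up fr_low fr_up)

universe u

variable {P : Type u} [Fintype P] [PartialOrder P] [DecidableEq P] {r i : ℕ}
variable {e e' : P → ℕ} {psi : P → P} {C K : Finset P}

lemma pair_of {s : Finset P} {x x' : P} (hx : x ∈ s) (hx' : x' ∈ s) (hne : x ≠ x')
    (hs : s.card ≤ 2) : s = {x, x'} := by
  symm
  apply Finset.eq_of_subset_of_card_le
  · intro y hy
    rw [mem_insert, mem_singleton] at hy
    rcases hy with rfl | rfl
    · exact hx
    · exact hx'
  · rw [Finset.card_pair hne]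
    exact hs

lemma sd2 (H : Gr P r) (hir : i ≤ r) :
    Sd2 uc dc (tL (P := P) i) (tU i) (lv P i) (lS P i) (uS P i) where
  s1 := sde_low H i
  s2 := sde_up H hir
  d1 := by
    rw [disjoint_left]
    intro x hx hx'
    rw [mem_lS] at hx
    rw [mem_lv] at hx'
    omega
  d2 := by
    rw [disjoint_left]
    intro x hx hx'
    rw [mem_uS] at hx
    rw [mem_lv] at hx'
    omega
  d3 := by
    rw [disjoint_left]
    intro x hx hx'
    rw [mem_lS] at hx
    rw [mem_uS] at hx'
    omega

theorem nf_of (Q : Nat4 r i K psi C) (hT : Z4 i C ⊆ T4 i C) (hc : IsCore i K psi e) (hs : Spt C e)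
    (hA : AdmL i e) (hB : AdmU i e) (hd : Disjoint (AL i e) (AU i e)) :
    Nf uc dc (tL (P := P) i) (tU i) (lv P i) (lS P i) (uS P i) e :=
  { Q.cf hc hs hA hB hd with
    g1 := by
      intro w hw tw he x hx x' hx' cx
      rw [mem_lS] at hw
      unfold tL at tw
      have wC := mem_of_pos hs he
      have lw : lev w = i + 2 := by omega
      have lx := lev_uc Q.H hx
      have lx' := lev_uc Q.H hx'
      by_contra hE
      have hne : x ≠ x' := by
        rintro rfl
        apply hE
        rw [inter_self, ← card_pos]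
        omega
      have hcw := pair_of hx hx' hne (uc_card_le Q.H w)
      by_cases cx' : (uc x').card = 2
      · exact hE (Q.nq w wC lw x hx x' hx' cx cx')
      · have h1 := uc_card_le Q.H x'
        have h2 := card_pos.2 (uc_nonempty Q.H (x := x') (by omega))
        rw [not_nonempty_iff_eq_empty] at hE
        have h3 : (uc x ∪ uc x').card = 3 := by
          rw [card_union_of_disjoint (disjoint_iff_inter_eq_empty.2 hE)]
          omega
        have h4 : w ∈ Z4 i C := mem_Z4.2 (Or.inl (mem_ZL.2 ⟨wC, lw, by rw [up_two Q.H lw hcw, h3]⟩))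
        rcases mem_T4.1 (hT h4) with ⟨-, h5⟩ | ⟨h5, -⟩
        · exact cx' (h5 x' hx')
        · have := (mem_ZU.1 h5).2.1
          omega
    g2 := by
      intro w hw tw he x hx x' hx' cx
      rw [mem_uS] at hw
      unfold tU at tw
      have wC := mem_of_pos hs he
      have lw : lev w + 2 = i := by omega
      have lx := lev_dc Q.H hx
      have lx' := lev_dc Q.H hx'
      by_contra hE
      have hne : x ≠ x' := by
        rintro rfl
        apply hE
        rw [inter_self, ← card_pos]
        omega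
      have hcw := pair_of hx hx' hne (dc_card_le Q.H w)
      by_cases cx' : (dc x').card = 2
      · exact hE (Q.nq' w wC lw x hx x' hx' cx cx')
      · have h1 := dc_card_le Q.H x'
        have hi2 := Q.hi2
        have h2 := card_pos.2 (dc_nonempty Q.H (x := x') (by omega))
        rw [not_nonempty_iff_eq_empty] at hE
        have h3 : (dc x ∪ dc x').card = 3 := by
          rw [card_union_of_disjoint (disjoint_iff_inter_eq_empty.2 hE)]
          omega
        have h4 : w ∈ Z4 i C := mem_Z4.2 (Or.inr (mem_ZU.2 ⟨wC, lw, by rw [dn_two Q.H lw hcw, h3]⟩))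
        rcases mem_T4.1 (hT h4) with ⟨h5, -⟩ | ⟨-, h5⟩
        · have := (mem_ZL.1 h5).2.1
          omega
        · exact cx' (h5 x' hx')
    m1 := by
      classical
      intro x hx tx he cx
      rw [mem_lS] at hx
      unfold tL at tx
      have hxK := Q.hK x (mem_of_pos hs he)
      obtain ⟨h1, h2⟩ := Q.hM.low x (mem_dbL.2 ⟨by omega, cx⟩) hxK
      rw [mem_dbU] at h1
      exact ⟨psi x, mem_uS.2 (by omega), by unfold tU; omega, h2⟩
    m2 := by
      classical
      intro x hx tx he cx
      rw [mem_uS] at hx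
      unfold tU at tx
      have hxK := Q.hK x (mem_of_pos hs he)
      obtain ⟨h1, h2⟩ := Q.hM.upp x (mem_dbU.2 ⟨by omega, cx⟩) hxK
      rw [mem_dbL] at h1
      exact ⟨psi x, mem_lS.2 (by omega), by unfold tL; omega, h2⟩
    out := by
      intro x h1 h2 h3
      rw [mem_lS] at h1
      rw [mem_uS] at h2
      rw [mem_lv] at h3
      omega }

/-- THE BOUND: a core of energy `n` of a natural part has at most `n / 2` deficits -/
theorem core_cheap (Q : Nat4 r i K psi C) (hT : Z4 i C ⊆ T4 i C) (hc : IsCore i K psi e)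
    (hs : Spt C e) {n : ℕ} (hn : ∑ x, e x = n) : Cheap (n / 2) i e := by
  by_cases hA : AdmL i e
  swap
  · exact Or.inl hA
  by_cases hB : AdmU i e
  swap
  · exact Or.inr (Or.inl hB)
  by_cases hd : Disjoint (AL i e) (AU i e)
  swap
  · exact Or.inr (Or.inr (Or.inl hd))
  have h1 := (nf_of Q hT hc hs hA hB hd).bound
  apply cheap_of
  have h2 : ∑ x, (e x : ℤ) = n := by
    rw [← hn]
    push_cast
    rfl
  rw [h2] at h1
  push_cast
  omega

/-- THE ORDER of the window sums of a natural part -/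
theorem ord_N (Q : Nat4 r i K psi C) (hT : Z4 i C ⊆ T4 i C) (n : ℕ) :
    dd ^ ((st i C).card - n / 2) ∣ ZC i C n := by
  classical
  have hi2 := Q.hi2
  have hr := Q.hi
  rw [ZC_coresK Q.H (by omega) K psi Q.part n]
  refine dvd_sum fun q hq => dvd_sum fun e he => ?_
  rw [mem_range] at hq
  rw [mem_filter, I2.mem_pa] at he
  refine JK_dvd Q.H Q.hi Q.hi2 Q.hM Q.hC (Rk_of_cheap (Cheap.mono (k := q / 2) ?_ ?_)) _
  · exact Nat.div_le_div_right (by omega)
  · exact core_cheap Q hT he.2 he.1.2 he.1.1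

/-- the tight cores -/
structure TC (i : ℕ) (K : Finset P) (psi : P → P) (C : Finset P) (k : ℕ) (e : P → ℕ) : Prop where
  hs : Spt C e
  hn : ∑ x, e x = 2 * k
  hc : IsCore i K psi e
  hA : AdmL i e
  hB : AdmU i e
  hd : Disjoint (AL i e) (AU i e)
  hk : (AL i e).card + (AU i e).card = pL i e + pU i e + k

lemma TC.nf (Q : Nat4 r i K psi C) (hT : Z4 i C ⊆ T4 i C) {k : ℕ} (h : TC i K psi C k e) :
    Nf uc dc (tL (P := P) i) (tU i) (lv P i) (lS P i) (uS P i) e :=
  nf_of Q hT h.hc h.hs h.hA h.hB h.hd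

/-- the data of a tight core -/
theorem TC.tg (Q : Nat4 r i K psi C) (hT : Z4 i C ⊆ T4 i C) {k : ℕ} (h : TC i K psi C k e) :
    ∃ (f : P → P) (Z X : Finset P) (f' : P → P) (Z' X' : Finset P),
      Tg uc dc (tL (P := P) i) (tU i) (lv P i) (lS P i) (uS P i) e f Z X f' Z' X' := by
  apply (h.nf Q hT).tight
  rw [kS_sum]
  have h1 := h.hk
  have h2 : ∑ x, (e x : ℤ) = 2 * k := by
    have := h.hn
    have h3 : ((∑ x, e x : ℕ) : ℤ) = 2 * k := by rw [this]; push_cast; rfl
    rw [← h3]
    push_cast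
    rfl
  rw [h2, h1]
  push_cast
  omega

/-- the cores which count -/
lemma TC.of (Q : Nat4 r i K psi C) (hT : Z4 i C ⊆ T4 i C) {k : ℕ} (hk : 1 ≤ k) (hs : Spt C e)
    (hn : ∑ x, e x = 2 * k) (hc : IsCore i K psi e) (h : ¬ Cheap (k - 1) i e) : TC i K psi C k e := by
  have h1 := core_cheap Q hT hc hs hn
  rw [Nat.mul_div_cancel_left k (by norm_num)] at h1
  unfold Cheap at h h1
  push Not at h
  obtain ⟨h2, h3, h4, h5⟩ := h
  refine ⟨hs, hn, hc, h2, h3, h4, ?_⟩
  rcases h1 with h1 | h1 | h1 | h1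
  · exact absurd h2 h1
  · exact absurd h3 h1
  · exact absurd h4 h1
  · omega

lemma TC.not_cheap {k : ℕ} (hk : 1 ≤ k) (h : TC i K psi C k e) : ¬ Cheap (k - 1) i e := by
  unfold Cheap
  push Not
  have := h.hk
  exact ⟨h.hA, h.hB, h.hd, by omega⟩

end Pool.Agent.GaussPoset.Win.NF
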