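import Pool.Agent.W_448nf_h61.NF

/-!
MP_448cb3_co, G2, case B: the toggle of a T-element of a tight core of a natural part.  helper61.
-/

namespace Pool.Agent.GaussPoset.Win.NF

set_option linter.unusedSectionVars false

open Finset
open Pool.Agent.GaussPoset.Win.W4 (Cf Nat4 mem_of_pos Z4 T4 P4 mem_Z4 mem_T4 mem_P4 up_two dn_two cS
  mem_cS ZC_coresK ZC_subK JK_dvd)
open Pool.Agent.GaussPoset.Win.SO (Sde Pen TD kS tL tU sde_low sde_up kS_sum cheap_of PN mem_PN pen_low
  pen_up)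
open Pool.Agent.GaussPoset.Win.I2 (kd gu kl kn kr so cc fr KK KD bd sur lS uS mem_lS mem_uS kd_dc kd_uc
  gu_uc gu_dc adm_low adm_up KD_low KD_up fr_low fr_up)

universe u

variable {P : Type u} [Fintype P] [PartialOrder P] [DecidableEq P] {r i : ℕ}
variable {e e' : P → ℕ} {psi : P → P} {C K : Finset P}

/-! ### counting functions in the abstract form -/

lemma admL_iff : AdmL i e ↔ Adm uc dc (lS P i) e := by
  constructor
  · exact adm_low
  · intro h z hz
    have := h z (mem_lS.2 hz)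
    rwa [kd_dc, gu_uc] at this

lemma admU_iff : AdmU i e ↔ Adm dc uc (uS P i) e := by
  constructor
  · exact adm_up
  · intro h z hz
    have := h z (mem_uS.2 hz)
    rwa [kd_uc, gu_dc] at this

lemma aL_eq : aL i e = (KD dc e (lS P i)).card := by
  classical
  unfold aL
  congr 1
  ext v
  unfold KD
  simp only [mem_filter, mem_lS, mem_univ, true_and, kd_dc]

lemma aU_eq : aU i e = (KD uc e (uS P i)).card := by
  classical
  unfold aU
  congr 1
  ext v
  unfold KD
  simp only [mem_filter, mem_uS, mem_univ, true_and, kd_uc]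

/-- the effect of a toggle -/
structure Eff (i : ℕ) (a b : P → ℕ) : Prop where
  admL : AdmL i b ↔ AdmL i a
  admU : AdmU i b ↔ AdmU i a
  dis : Disjoint (AL i b) (AU i b) ↔ Disjoint (AL i a) (AU i a)
  kap : (AL i a).card + (AU i a).card + (pL i b + pU i b) =
    (AL i b).card + (AU i b).card + (pL i a + pU i a)
  sg : ((aL i a + (AL i a).card + (aU i a + pU i a)) +
    (aL i b + (AL i b).card + (aU i b + pU i b))) % 2 = 1

lemma Eff.symm {a b : P → ℕ} (h : Eff i a b) : Eff i b a :=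
  ⟨h.admL.symm, h.admU.symm, h.dis.symm, h.kap.symm, by rw [add_comm]; exact h.sg⟩

theorem eff_low (H : Gr P r) (hir : i ≤ r) {z x x' s : P}
    (T : TogC uc dc (tL (P := P) i) (lv P i) (lS P i) e z x x' s) (B : AB e e' z s) : Eff i e e' := by
  have S := sd2 H hir
  obtain ⟨h1, h2⟩ := adm_iff S T B
  obtain ⟨h3, h4⟩ := KDV1 S T B
  obtain ⟨h5, h6⟩ := KDV2 S T B
  have h7 := KDS1 S T B
  have h8 := KDS2 S T B
  have h9 := FR1 S T B
  have h10 := FR2 S T B
  rw [KD_low] at h3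
  rw [KD_low, KD_low] at h4
  rw [KD_up, KD_up] at h5
  rw [KD_up] at h6
  rw [fr_low, fr_low] at h9
  have h11 : pU i e' = pU i e := by rw [← fr_up, ← fr_up, h10]
  rw [← aL_eq, ← aL_eq] at h7
  have h12 : aU i e' = aU i e := by rw [aU_eq, aU_eq, h8]
  have h13 : (AL i e).card = (AL i e').card + 1 := by rw [h4, card_insert_of_notMem h3]
  refine ⟨?_, ?_, ?_, ?_, ?_⟩
  · rw [admL_iff, admL_iff]; exact h1
  · rw [admU_iff, admU_iff]; exact h2
  · rw [h4, h5, disjoint_insert_left]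
    exact ⟨fun h => ⟨h6, h⟩, fun h => h.2⟩
  · rw [h5, h13, h9, h11]
    ring
  · rw [h13, h7, h11, h12]
    omega

theorem eff_upp (H : Gr P r) (hir : i ≤ r) {z x x' s : P}
    (T : TogC dc uc (tU (P := P) i) (lv P i) (uS P i) e z x x' s) (B : AB e e' z s) : Eff i e e' := by
  have S := (sd2 (i := i) H hir).symm
  obtain ⟨h1, h2⟩ := adm_iff S T B
  obtain ⟨h3, h4⟩ := KDV1 S T B
  obtain ⟨h5, h6⟩ := KDV2 S T B
  have h7 := KDS1 S T B
  have h8 := KDS2 S T B
  have h9 := FR1 S T B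
  have h10 := FR2 S T B
  rw [KD_up] at h3
  rw [KD_up, KD_up] at h4
  rw [KD_low, KD_low] at h5
  rw [KD_low] at h6
  rw [fr_up, fr_up] at h9
  have h11 : pL i e' = pL i e := by rw [← fr_low, ← fr_low, h10]
  rw [← aU_eq, ← aU_eq] at h7
  have h12 : aL i e' = aL i e := by rw [aL_eq, aL_eq, h8]
  have h13 : (AU i e).card = (AU i e').card + 1 := by rw [h4, card_insert_of_notMem h3]
  refine ⟨?_, ?_, ?_, ?_, ?_⟩
  · rw [admL_iff, admL_iff]; exact h2
  · rw [admU_iff, admU_iff]; exact h1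
  · rw [h4, h5, disjoint_insert_right]
    exact ⟨fun h => ⟨h6, h⟩, fun h => h.2⟩
  · rw [h5, h13, h9, h11]
    ring
  · rw [h5, h9, h7, h12]
    omega

/-! ### the toggle -/

open Classical in
/-- the T-elements of a configuration -/
noncomputable def TI (i : ℕ) (e : P → ℕ) : Finset P :=
  univ.filter (fun z => ((lev z = i + 2 ∧ (uc z).card = 2) ∨ (lev z + 2 = i ∧ (dc z).card = 2)) ∧
    0 < e z)

lemma mem_TI {z : P} : z ∈ TI i e ↔
    ((lev z = i + 2 ∧ (uc z).card = 2) ∨ (lev z + 2 = i ∧ (dc z).card = 2)) ∧ 0 < e z := by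
  classical
  unfold TI
  rw [mem_filter]
  simp only [mem_univ, true_and]

/-- the toggle at `z` -/
noncomputable def tgl (i : ℕ) (z : P) (e : P → ℕ) : P → ℕ :=
  fun y => if y = z then 3 - e y else if y ∈ cS i z then 1 - e y else e y

/-- one of the two forms -/
def AB2 (e : P → ℕ) (z s : P) : Prop := (e z = 2 ∧ e s = 0) ∨ (e z = 1 ∧ e s = 1)

lemma cS_low (H : Gr P r) {z x x' s : P} (T : TD uc (tL (P := P) i) (lS P i) z x x' s) :
    cS i z = {s} := by
  have h1 := T.m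
  have h2 := T.tw
  rw [mem_lS] at h1
  unfold tL at h2
  have hx : x ∈ uc z := by rw [T.cw]; simp
  have hx' : x' ∈ uc z := by rw [T.cw]; simp
  have lx := lev_uc H hx
  have ls := lev_uc H T.sx
  ext v
  rw [mem_cS, mem_singleton]
  constructor
  · rintro ⟨-, h3, -⟩
    exact T.only v (h3 h1 x hx) (h3 h1 x' hx')
  · rintro rfl
    refine ⟨by omega, fun _ y hy => ?_, fun h3 => by omega⟩
    rw [T.cw, mem_insert, mem_singleton] at hy
    rcases hy with rfl | rfl
    · exact T.sx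
    · exact T.sx'

lemma cS_upp (H : Gr P r) {z x x' s : P} (T : TD dc (tU (P := P) i) (uS P i) z x x' s) :
    cS i z = {s} := by
  have h1 := T.m
  have h2 := T.tw
  rw [mem_uS] at h1
  unfold tU at h2
  have hx : x ∈ dc z := by rw [T.cw]; simp
  have hx' : x' ∈ dc z := by rw [T.cw]; simp
  have lx := lev_dc H hx
  have ls := lev_dc H T.sx
  ext v
  rw [mem_cS, mem_singleton]
  constructor
  · rintro ⟨-, -, h3⟩
    exact T.only v (h3 h1 x hx) (h3 h1 x' hx')
  · rintro rfl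
    refine ⟨by omega, fun h3 => by omega, fun _ y hy => ?_⟩
    rw [T.cw, mem_insert, mem_singleton] at hy
    rcases hy with rfl | rfl
    · exact T.sx
    · exact T.sx'

/-- the two forms and the toggle -/
lemma tgl_AB {z s : P} (hcs : cS i z = {s}) (hne : z ≠ s) (h : AB2 e z s) :
    (AB e (tgl i z e) z s ∧ e z = 2) ∨ (AB (tgl i z e) e z s ∧ e z = 1) := by
  have h1 : tgl i z e z = 3 - e z := by unfold tgl; rw [if_pos rfl]
  have h2 : tgl i z e s = 1 - e s := by
    unfold tgl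
    rw [if_neg hne.symm, hcs, if_pos (mem_singleton_self s)]
  have h3 : ∀ y, y ≠ z → y ≠ s → tgl i z e y = e y := by
    intro y hy hy'
    unfold tgl
    rw [if_neg hy, hcs, if_neg (by rw [mem_singleton]; exact hy')]
  rcases h with ⟨h4, h5⟩ | ⟨h4, h5⟩
  · exact Or.inl ⟨⟨h4, h5, by rw [h1, h4], by rw [h2, h5], h3⟩, h4⟩
  · exact Or.inr ⟨⟨by rw [h1, h4], by rw [h2, h5], h4, h5, fun y a b => (h3 y a b).symm⟩, h4⟩

lemma tgl_tgl {z s : P} (hcs : cS i z = {s}) (hne : z ≠ s) (h : AB2 e z s) :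
    tgl i z (tgl i z e) = e := by
  funext y
  unfold tgl
  by_cases hy : y = z
  · rw [if_pos hy, if_pos hy, hy]
    rcases h with ⟨h4, h5⟩ | ⟨h4, h5⟩ <;> omega
  · rw [if_neg hy, if_neg hy]
    by_cases hs : y ∈ cS i z
    · rw [if_pos hs, if_pos hs]
      rw [hcs, mem_singleton] at hs
      subst hs
      rcases h with ⟨h4, h5⟩ | ⟨h4, h5⟩ <;> omega
    · rw [if_neg hs, if_neg hs]

/-- the data of a T-element of a tight core -/
theorem TC.item (Q : Nat4 r i K psi C) (hT : Z4 i C ⊆ T4 i C) {k : ℕ} (h : TC i K psi C k e)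
    {z : P} (hz : z ∈ TI i e) : ∃ x x' s, z ∈ C ∧ s ∈ C ∧ lev s = i ∧ z ≠ s ∧ cS i z = {s} ∧
      AB2 e z s ∧ (TogC uc dc (tL (P := P) i) (lv P i) (lS P i) e z x x' s ∨
        TogC dc uc (tU (P := P) i) (lv P i) (uS P i) e z x x' s) := by
  have hi2 := Q.hi2
  have hir : i ≤ r := by omega
  obtain ⟨f, Z, X, f', Z', X', T⟩ := h.tg Q hT
  have S := sd2 (i := i) Q.H hir
  rw [mem_TI] at hz
  obtain ⟨hz1, hz0⟩ := hz
  have zC := mem_of_pos h.hs hz0
  have hC := Q.part
  rcases hz1 with ⟨lz, cz⟩ | ⟨lz, cz⟩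
  · have zS : z ∈ lS P i := mem_lS.2 (by omega)
    have tz : tL (P := P) i z = 2 := by unfold tL; omega
    have fin : ∀ {x x' s : P}, TD uc (tL (P := P) i) (lS P i) z x x' s → AB2 e z s →
        TogC uc dc (tL (P := P) i) (lv P i) (lS P i) e z x x' s →
        ∃ x x' s, z ∈ C ∧ s ∈ C ∧ lev s = i ∧ z ≠ s ∧ cS i z = {s} ∧ AB2 e z s ∧
          (TogC uc dc (tL (P := P) i) (lv P i) (lS P i) e z x x' s ∨
            TogC dc uc (tU (P := P) i) (lv P i) (uS P i) e z x x' s) := by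
      intro x x' s D hAB hG
      have hx : x ∈ uc z := by rw [D.cw]; simp
      have sV := hG.sV
      rw [mem_lv] at sV
      exact ⟨x, x', s, zC, hC.up (hC.up zC (mem_uc.1 hx)) (mem_uc.1 D.sx), sV,
        (hG.notV S).2.2.1, cS_low Q.H D, hAB, Or.inl hG⟩
    rcases T.kind zS tz hz0 with ⟨y, h1⟩ | ⟨x, x', s, h1⟩ | ⟨x, x', s, h1⟩
    · rw [h1.pen.cp, card_singleton] at cz
      omega
    · exact fin h1.T (Or.inl ⟨h1.ez, h1.sx s h1.T.sx⟩) (h1.tog T)
    · exact fin h1.T (Or.inr ⟨h1.ez, h1.es⟩) (h1.tog T)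
  · have zS : z ∈ uS P i := mem_uS.2 (by omega)
    have tz : tU (P := P) i z = 2 := by unfold tU; omega
    have fin : ∀ {x x' s : P}, TD dc (tU (P := P) i) (uS P i) z x x' s → AB2 e z s →
        TogC dc uc (tU (P := P) i) (lv P i) (uS P i) e z x x' s →
        ∃ x x' s, z ∈ C ∧ s ∈ C ∧ lev s = i ∧ z ≠ s ∧ cS i z = {s} ∧ AB2 e z s ∧
          (TogC uc dc (tL (P := P) i) (lv P i) (lS P i) e z x x' s ∨
            TogC dc uc (tU (P := P) i) (lv P i) (uS P i) e z x x' s) := by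
      intro x x' s D hAB hG
      have hx : x ∈ dc z := by rw [D.cw]; simp
      have lx := lev_dc Q.H hx
      have sV := hG.sV
      rw [mem_lv] at sV
      exact ⟨x, x', s, zC, hC.dn (hC.dn zC (by omega) (mem_dc.1 hx)) (by omega) (mem_dc.1 D.sx), sV,
        (hG.notV S.symm).2.2.1, cS_upp Q.H D, hAB, Or.inr hG⟩
    rcases T.symm.kind zS tz hz0 with ⟨y, h1⟩ | ⟨x, x', s, h1⟩ | ⟨x, x', s, h1⟩
    · rw [h1.pen.cp, card_singleton] at cz
      omega
    · exact fin h1.T (Or.inl ⟨h1.ez, h1.sx s h1.T.sx⟩) (h1.tog T.symm)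
    · exact fin h1.T (Or.inr ⟨h1.ez, h1.es⟩) (h1.tog T.symm)

/-- the transfer of the conditions -/
lemma TC.transfer {a b : P → ℕ} {k : ℕ} {z s : P} (H : Gr P r) (h : TC i K psi C k a)
    (E : Eff i a b) (zC : z ∈ C) (sC : s ∈ C) (ls : lev s = i) (lz : lev z = i + 2 ∨ lev z + 2 = i)
    (hne : z ≠ s) (hzs : a z + a s = b z + b s) (hz : 0 < a z) (hz' : 0 < b z)
    (eq : ∀ y, y ≠ z → y ≠ s → b y = a y) : TC i K psi C k b := by
  refine ⟨?_, ?_, ?_, E.admL.2 h.hA, E.admU.2 h.hB, E.dis.2 h.hd, ?_⟩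
  · intro y hy
    rw [eq y (by rintro rfl; exact hy zC) (by rintro rfl; exact hy sC)]
    exact h.hs y hy
  · rw [← h.hn]
    have h1 : ∀ g : P → ℕ, ∑ x, g x = g z + g s + ∑ x ∈ (univ.erase z).erase s, g x := by
      intro g
      rw [← add_sum_erase _ _ (mem_univ z), ← add_sum_erase (univ.erase z) _
        (mem_erase.2 ⟨hne.symm, mem_univ s⟩)]
      ring
    rw [h1 a, h1 b, hzs]
    congr 1
    refine sum_congr rfl fun y hy => ?_
    rw [mem_erase, mem_erase] at hy
    exact eq y hy.2.1 hy.1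
  · intro x hx
    have hx2 := hx
    rw [mem_Rst] at hx
    have hT : Tch i b = Tch i a := by
      ext y
      rw [mem_Tch, mem_Tch]
      have key : ∀ w, lev w ≠ i → (0 < b w ↔ 0 < a w) := by
        intro w hw
        by_cases hwz : w = z
        · subst hwz
          exact ⟨fun _ => hz, fun _ => hz'⟩
        · rw [eq w hwz (by rintro rfl; exact hw ls)]
      constructor
      · rintro (⟨h1, w, hw, h2⟩ | ⟨h1, w, hw, h2⟩)
        · have := lev_dc H (mem_dc.2 hw)
          exact Or.inl ⟨h1, w, hw, (key w (by omega)).1 h2⟩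
        · have := lev_uc H (mem_uc.2 hw)
          exact Or.inr ⟨h1, w, hw, (key w (by omega)).1 h2⟩
      · rintro (⟨h1, w, hw, h2⟩ | ⟨h1, w, hw, h2⟩)
        · have := lev_dc H (mem_dc.2 hw)
          exact Or.inl ⟨h1, w, hw, (key w (by omega)).2 h2⟩
        · have := lev_uc H (mem_uc.2 hw)
          exact Or.inr ⟨h1, w, hw, (key w (by omega)).2 h2⟩
    have hn := mem_near.1 hx.1
    rw [eq x (by rintro rfl; omega) (by rintro rfl; omega)]
    refine h.hc x (mem_Rst.2 ?_)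
    rw [← hT]
    exact hx
  · have h1 := E.kap
    have h2 := h.hk
    omega

/-- the toggle of a tight core is a tight core -/
theorem TC.toggle (Q : Nat4 r i K psi C) (hT : Z4 i C ⊆ T4 i C) {k : ℕ} (h : TC i K psi C k e)
    {z : P} (hz : z ∈ TI i e) : TC i K psi C k (tgl i z e) ∧ Eff i e (tgl i z e) ∧
      TI i (tgl i z e) = TI i e ∧ tgl i z (tgl i z e) = e ∧ tgl i z e ≠ e := by
  have hi2 := Q.hi2
  have hir : i ≤ r := by omega
  have S := sd2 (i := i) Q.H hir
  obtain ⟨x, x', s, zC, sC, ls, hne, hcs, hAB, hG⟩ := h.item Q hT hz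
  have hz2 := (mem_TI.1 hz).1
  have lz : lev z = i + 2 ∨ lev z + 2 = i := by
    rcases hz2 with h1 | h1
    · exact Or.inl h1.1
    · exact Or.inr h1.1
  -- the effect
  have key : Eff i e (tgl i z e) ∧ (∀ y, y ≠ z → y ≠ s → tgl i z e y = e y) ∧
      e z + e s = tgl i z e z + tgl i z e s ∧ 0 < tgl i z e z ∧ tgl i z e z ≠ e z := by
    rcases tgl_AB hcs hne hAB with ⟨h1, h2⟩ | ⟨h1, h2⟩
    · refine ⟨?_, h1.eq, ?_, ?_, ?_⟩
      · rcases hG with hG | hG
        · exact eff_low Q.H hir hG h1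
        · exact eff_upp Q.H hir hG h1
      · rw [h1.z1, h1.s1, h1.z2, h1.s2]
      · rw [h1.z2]; exact one_pos
      · rw [h1.z2, h1.z1]; decide
    · refine ⟨?_, fun y a b => (h1.eq y a b).symm, ?_, ?_, ?_⟩
      · rcases hG with hG | hG
        · exact (eff_low Q.H hir (hG.congr S (fun y a b => (h1.eq y a b).symm)) h1).symm
        · exact (eff_upp Q.H hir (hG.congr S.symm (fun y a b => (h1.eq y a b).symm)) h1).symm
      · rw [h1.z1, h1.s1, h1.z2, h1.s2]
      · rw [h1.z1]; decide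
      · rw [h1.z2, h1.z1]; decide
  obtain ⟨k1, k2, k3, k4, k5⟩ := key
  refine ⟨h.transfer Q.H k1 zC sC ls lz hne k3 (mem_TI.1 hz).2 k4 k2, k1, ?_,
    tgl_tgl hcs hne hAB, ?_⟩
  · ext y
    rw [mem_TI, mem_TI]
    by_cases hy : y = z
    · subst hy
      exact ⟨fun h => ⟨h.1, (mem_TI.1 hz).2⟩, fun h => ⟨h.1, k4⟩⟩
    · by_cases hys : y = s
      · subst hys
        constructor
        · rintro ⟨h1, -⟩
          omega
        · rintro ⟨h1, -⟩
          omega
      · rw [k2 y hy hys]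
  · intro h1
    exact k5 (congrFun h1 z)

end Pool.Agent.GaussPoset.Win.NF
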