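import Pool.Agent.W_448nf_h61.NG

/-!
MP_448cb3_co, G2, case B: `w(2k, k) = 0` for `k ≥ 2` for a natural part without two pendants with disjoint
sites and without SD3.  helper61.
-/

namespace Pool.Agent.GaussPoset.Win.NF

set_option linter.unusedSectionVars false

open Finset
open Pool.Agent.GaussPoset.Win.W4 (Cf Nat4 mem_of_pos Z4 T4 P4 mem_Z4 mem_T4 mem_P4 up_two dn_two cS
  mem_cS ZC_coresK ZC_subK JK_dvd)
open Pool.Agent.GaussPoset.Win.SO (Sde Pen TD kS tL tU sde_low sde_up kS_sum cheap_of PN mem_PN pen_low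
  pen_up)
open Pool.Agent.GaussPoset.Win.I2 (kd gu kl kn kr so cc fr KK KD bd sur lS uS mem_lS mem_uS kd_dc kd_uc
  gu_uc gu_dc adm_low adm_up KD_low KD_up fr_low fr_up)

universe u

variable {P : Type u} [Fintype P] [PartialOrder P] [DecidableEq P] {r i : ℕ}
variable {e e' : P → ℕ} {psi : P → P} {C K : Finset P}

/-! ### the leading coefficient -/

/-- the sign exponent -/
noncomputable def sx (i : ℕ) (e : P → ℕ) : ℕ := aL i e + (AL i e).card + (aU i e + pU i e)

lemma cst_xx : PowerSeries.constantCoeff (xx : A) = -1 := by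
  unfold xx dd
  simp

lemma cst_xi : PowerSeries.constantCoeff (xi : A) = -1 := by
  unfold xi
  rw [map_neg, ← PowerSeries.coeff_zero_eq_constantCoeff_apply, PowerSeries.coeff_mk]

/-- the leading coefficient of a tight core -/
theorem TC.lead (H : Gr P r) (hC : Part i C) {k : ℕ} (h : TC i K psi C k e) :
    PowerSeries.coeff ((st i C).card - k) (tC i C e) = (-1) ^ sx i e := by
  have h1 : AL i e ∪ AU i e ⊆ st i C := union_subset (AL_sub hC h.hs) (AU_sub H hC h.hs)
  have h2 := card_le_card h1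
  rw [card_union_of_disjoint h.hd] at h2
  have h3 := h.hk
  have h4 : tC i C e = (xx ^ (aL i e + (AL i e).card) * xi ^ (aU i e + pU i e)) *
      dd ^ ((st i C).card - k) := by
    unfold tC cw
    rw [if_pos h.hd, if_pos ⟨h.hA, h.hB⟩]
    have h5 : (st i C).card - k = (pL i e + pU i e) + ((st i C).card - (AL i e).card - (AU i e).card) := by
      omega
    rw [h5, pow_add dd, pow_add xx]
    ring
  rw [h4]
  unfold dd
  rw [PowerSeries.coeff_mul_X_pow', if_pos le_rfl, Nat.sub_self,
    PowerSeries.coeff_zero_eq_constantCoeff_apply, map_mul, map_pow, map_pow, cst_xx, cst_xi, ← pow_add]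
  rfl

lemma Eff.neg {a b : P → ℕ} (h : Eff i a b) : ((-1 : ℤ) ^ sx i a) + (-1) ^ sx i b = 0 := by
  have h1 := h.sg
  rcases Nat.even_or_odd (sx i a) with h2 | h2
  · have h3 : Odd (sx i b) := by
      rw [Nat.odd_iff]
      have h4 := Nat.even_iff.1 h2
      unfold sx at h4 ⊢
      omega
    rw [h2.neg_one_pow, h3.neg_one_pow]
    norm_num
  · have h3 : Even (sx i b) := by
      rw [Nat.even_iff]
      have h4 := Nat.odd_iff.1 h2
      unfold sx at h4 ⊢
      omega
    rw [h2.neg_one_pow, h3.neg_one_pow]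
    norm_num

/-! ### the sum over the tight cores with a T-element -/

open Classical in
/-- the tight cores -/
noncomputable def TCs (i : ℕ) (K : Finset P) (psi : P → P) (C : Finset P) (k : ℕ) :
    Finset (P → ℕ) := (C.piAntidiag (2 * k)).filter (fun e => TC i K psi C k e)

open Classical in
/-- a choice of an element -/
noncomputable def pick (s : Finset P) (h : s.Nonempty) : P := h.choose

lemma pick_mem {s : Finset P} (h : s.Nonempty) : pick s h ∈ s := h.choose_spec

lemma pick_congr {s s' : Finset P} (h : s.Nonempty) (h' : s'.Nonempty) (hs : s = s') :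
    pick s h = pick s' h' := by
  subst hs
  rfl

open Classical in
/-- THE SWITCH: the tight cores with T-elements cancel -/
theorem sum_T (Q : Nat4 r i K psi C) (hT : Z4 i C ⊆ T4 i C) (k : ℕ) :
    ∑ e ∈ (TCs i K psi C k).filter (fun e => (TI i e).Nonempty), ((-1 : ℤ) ^ sx i e) = 0 := by
  have hm : ∀ e, e ∈ (TCs i K psi C k).filter (fun e => (TI i e).Nonempty) ↔
      TC i K psi C k e ∧ (TI i e).Nonempty := by
    intro e
    rw [mem_filter]
    unfold TCs
    rw [mem_filter, I2.mem_pa]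
    exact ⟨fun h => ⟨h.1.2, h.2⟩, fun h => ⟨⟨⟨h.1.hn, h.1.hs⟩, h.1⟩, h.2⟩⟩
  refine Finset.sum_involution (fun e he => tgl i (pick (TI i e) ((hm e).1 he).2) e) ?_ ?_ ?_ ?_
  · intro e he
    obtain ⟨h1, h2⟩ := (hm e).1 he
    exact (h1.toggle Q hT (pick_mem h2)).2.1.neg
  · intro e he _
    obtain ⟨h1, h2⟩ := (hm e).1 he
    exact (h1.toggle Q hT (pick_mem h2)).2.2.2.2
  · intro e he
    obtain ⟨h1, h2⟩ := (hm e).1 he
    obtain ⟨g1, -, g3, -⟩ := h1.toggle Q hT (pick_mem h2)
    exact (hm _).2 ⟨g1, by rw [g3]; exact h2⟩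
  · intro e he
    obtain ⟨h1, h2⟩ := (hm e).1 he
    obtain ⟨g1, -, g3, g4, -⟩ := h1.toggle Q hT (pick_mem h2)
    have h3 : (TI i (tgl i (pick (TI i e) h2) e)).Nonempty := by rw [g3]; exact h2
    have h4 : pick (TI i (tgl i (pick (TI i e) h2) e)) h3 = pick (TI i e) h2 :=
      pick_congr _ _ g3
    show tgl i (pick (TI i (tgl i (pick (TI i e) h2) e)) h3) (tgl i (pick (TI i e) h2) e) = e
    rw [h4]
    exact g4

open Classical in
/-- the coefficient `w(2k, k)` of a natural part -/
theorem coeff_N (Q : Nat4 r i K psi C) (hT : Z4 i C ⊆ T4 i C) {k : ℕ} (hk : 1 ≤ k)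
    (hkb : k ≤ (st i C).card) :
    PowerSeries.coeff ((st i C).card - k) (ZC i C (2 * k)) =
      ∑ e ∈ (TCs i K psi C k).filter (fun e => TI i e = ∅), ((-1 : ℤ) ^ sx i e) := by
  have h1 := ZC_subK Q.H Q.hi Q.hi2 Q.hM Q.hC (n := 2 * k) (k := k - 1) (fun e hc hs hn => by
    refine Cheap.mono (k := (∑ x, e x) / 2) (by omega) (core_cheap Q hT hc hs rfl))
  have h2 : (st i C).card - (k - 1) = ((st i C).card - k) + 1 := by omega
  rw [h2] at h1
  have h3 := I2.coeff_eq_zero_of_dvd h1
  rw [map_sub, sub_eq_zero] at h3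
  rw [h3, map_sum]
  have h4 : (C.piAntidiag (2 * k)).filter (fun e => IsCore i K psi e ∧ ¬ Cheap (k - 1) i e) =
      TCs i K psi C k := by
    ext e
    unfold TCs
    rw [mem_filter, mem_filter]
    constructor
    · rintro ⟨g1, g2, g3⟩
      have g4 := I2.mem_pa.1 g1
      exact ⟨g1, TC.of Q hT hk g4.2 g4.1 g2 g3⟩
    · rintro ⟨g1, g2⟩
      exact ⟨g1, g2.hc, g2.not_cheap hk⟩
  rw [h4]
  have h5 : ∀ e ∈ TCs i K psi C k, PowerSeries.coeff ((st i C).card - k) (tC i C e) =
      (-1) ^ sx i e := by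
    intro e he
    unfold TCs at he
    rw [mem_filter] at he
    exact he.2.lead Q.H Q.part
  rw [sum_congr rfl h5, ← sum_filter_add_sum_filter_not (TCs i K psi C k)
    (fun e => (TI i e).Nonempty), sum_T Q hT k, zero_add]
  refine sum_congr ?_ fun _ _ => rfl
  ext e
  rw [mem_filter, mem_filter, not_nonempty_iff_eq_empty]

end Pool.Agent.GaussPoset.Win.NF
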