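import Pool.Agent.W_448nf_h61.NH

/-!
MP_448cb3_co, G2, case B: the tight cores without T-elements are site-disjoint unions of pendants.
helper61.
-/

namespace Pool.Agent.GaussPoset.Win.NF

set_option linter.unusedSectionVars false

open Finset
open Pool.Agent.GaussPoset.Win.W4 (Cf Nat4 mem_of_pos Z4 T4 P4 mem_Z4 mem_T4 mem_P4 up_two dn_two cS
  mem_cS ZC_coresK ZC_subK JK_dvd)
open Pool.Agent.GaussPoset.Win.SO (Sde Pen TD kS tL tU sde_low sde_up kS_sum cheap_of PN mem_PN pen_low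
  pen_up con_PD con_PU sit_PD sit_PU con)
open Pool.Agent.GaussPoset.Win.I2 (kd gu kl kn kr so cc fr KK KD bd sur lS uS mem_lS mem_uS kd_dc kd_uc
  gu_uc gu_dc adm_low adm_up KD_low KD_up fr_low fr_up)

universe u

variable {P : Type u} [Fintype P] [PartialOrder P] [DecidableEq P] {r i : ℕ}
variable {e e' : P → ℕ} {psi : P → P} {C K : Finset P}

open Classical in
/-- the excited elements at distance two -/
noncomputable def F2 (i : ℕ) (e : P → ℕ) : Finset P :=
  univ.filter (fun z => (lev z = i + 2 ∨ lev z + 2 = i) ∧ 0 < e z)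

lemma mem_F2 {z : P} : z ∈ F2 i e ↔ (lev z = i + 2 ∨ lev z + 2 = i) ∧ 0 < e z := by
  classical
  unfold F2
  rw [mem_filter]
  simp only [mem_univ, true_and]

/-- an excited pendant of a tight core -/
structure PI (i : ℕ) (e : P → ℕ) (p y : P) : Prop where
  pn : p ∈ PD P i ∨ p ∈ PU P i
  ep : e p = 1
  ey : e y = 1
  cn : con i p = {p, y}
  lv : (lev p = i + 2 ∧ uc p = {y} ∧ sit i p = uc y) ∨ (lev p + 2 = i ∧ dc p = {y} ∧ sit i p = dc y)

/-- the elements at distance two of a tight core without T-elements -/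
theorem TC.pend (Q : Nat4 r i K psi C) (hT : Z4 i C ⊆ T4 i C) {k : ℕ} (h : TC i K psi C k e)
    (h0 : TI i e = ∅) {p : P} (hp : p ∈ F2 i e) : ∃ y, PI i e p y := by
  obtain ⟨f, Z, X, f', Z', X', T⟩ := h.tg Q hT
  rw [mem_F2] at hp
  obtain ⟨hl, hp0⟩ := hp
  have hn : ∀ z, z ∉ TI i e := by
    intro z hz
    rw [h0] at hz
    exact notMem_empty z hz
  rcases hl with hl | hl
  · have zS : p ∈ lS P i := mem_lS.2 (by omega)
    have tz : tL (P := P) i p = 2 := by unfold tL; omega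
    have hT2 : ∀ {x x' s : P}, TD uc (tL (P := P) i) (lS P i) p x x' s → False := by
      intro x x' s D
      exact hn p (mem_TI.2 ⟨Or.inl ⟨hl, by rw [D.cw, card_pair D.ne]⟩, hp0⟩)
    rcases T.kind zS tz hp0 with ⟨y, h1⟩ | ⟨x, x', s, h1⟩ | ⟨x, x', s, h1⟩
    · obtain ⟨g1, g2, g3, g4, g5⟩ := pen_low Q.H h1.pen
      exact ⟨y, Or.inl g1, h1.ez, h1.ey, con_PD Q.H g2 g4, Or.inl ⟨g2, g4, sit_PD Q.H g2 g4⟩⟩
    · exact (hT2 h1.T).elim
    · exact (hT2 h1.T).elim
  · have zS : p ∈ uS P i := mem_uS.2 (by omega)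
    have tz : tU (P := P) i p = 2 := by unfold tU; omega
    have hT2 : ∀ {x x' s : P}, TD dc (tU (P := P) i) (uS P i) p x x' s → False := by
      intro x x' s D
      exact hn p (mem_TI.2 ⟨Or.inr ⟨hl, by rw [D.cw, card_pair D.ne]⟩, hp0⟩)
    rcases T.symm.kind zS tz hp0 with ⟨y, h1⟩ | ⟨x, x', s, h1⟩ | ⟨x, x', s, h1⟩
    · obtain ⟨g1, g2, g3, g4, g5⟩ := pen_up Q.H h1.pen
      exact ⟨y, Or.inr g1, h1.ez, h1.ey, con_PU Q.H g2 g4, Or.inr ⟨g2, g4, sit_PU Q.H g2 g4⟩⟩
    · exact (hT2 h1.T).elim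
    · exact (hT2 h1.T).elim

/-- the configuration is the indicator function of the pendants and their feet -/
theorem TC.ind (Q : Nat4 r i K psi C) (hT : Z4 i C ⊆ T4 i C) {k : ℕ} (h : TC i K psi C k e)
    (h0 : TI i e = ∅) (x : P) : e x = if x ∈ (F2 i e).biUnion (con i) then 1 else 0 := by
  obtain ⟨f, Z, X, f', Z', X', T⟩ := h.tg Q hT
  have hi2 := Q.hi2
  have hn : ∀ z, z ∉ TI i e := by
    intro z hz
    rw [h0] at hz
    exact notMem_empty z hz
  split_ifs with hx
  · rw [mem_biUnion] at hx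
    obtain ⟨p, hp, hx⟩ := hx
    obtain ⟨y, hy⟩ := h.pend Q hT h0 hp
    rw [hy.cn, mem_insert, mem_singleton] at hx
    rcases hx with rfl | rfl
    · exact hy.ep
    · exact hy.ey
  · by_contra hne
    have hpos : 0 < e x := by omega
    have key : ∀ p ∈ F2 i e, x ∉ con i p := fun p hp hx' => hx (mem_biUnion.2 ⟨p, hp, hx'⟩)
    have hself : x ∉ F2 i e := by
      intro h1
      obtain ⟨y, hy⟩ := h.pend Q hT h0 h1
      exact key x h1 (by rw [hy.cn]; simp)
    rcases Nat.lt_trichotomy (lev x) i with hl | hl | hl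
    · have hxS : x ∈ uS P i := mem_uS.2 hl
      by_cases h1 : lev x + 1 = i
      · obtain ⟨z, hz, ez⟩ := T.symm.touch1 hxS (by unfold tU; omega) hpos
        have lz := lev_uc Q.H hz
        have hzF : z ∈ F2 i e := mem_F2.2 ⟨Or.inr (by omega), ez⟩
        obtain ⟨y, hy⟩ := h.pend Q hT h0 hzF
        apply key z hzF
        rw [hy.cn]
        rcases hy.lv with ⟨g1, -⟩ | ⟨g1, g2, -⟩
        · omega
        · have h2 : x ∈ dc z := mem_dc.2 (mem_uc.1 hz)
          rw [g2, mem_singleton] at h2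
          rw [h2]
          simp
      · by_cases h2 : lev x + 2 = i
        · exact hself (mem_F2.2 ⟨Or.inr h2, hpos⟩)
        · have := T.symm.far hxS (by unfold tU; omega)
          omega
    · obtain ⟨-, h1 | h1⟩ := T.exV (mem_lv.2 hl) hpos
      · obtain ⟨z, y, y', h1⟩ := h1
        have h2 := h1.T.m
        have h3 := h1.T.tw
        rw [mem_lS] at h2
        unfold tL at h3
        exact hn z (mem_TI.2 ⟨Or.inl ⟨by omega, by rw [h1.T.cw, card_pair h1.T.ne]⟩,
          by have := h1.ez; omega⟩)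
      · obtain ⟨z, y, y', h1⟩ := h1
        have h2 := h1.T.m
        have h3 := h1.T.tw
        rw [mem_uS] at h2
        unfold tU at h3
        exact hn z (mem_TI.2 ⟨Or.inr ⟨by omega, by rw [h1.T.cw, card_pair h1.T.ne]⟩,
          by have := h1.ez; omega⟩)
    · have hxS : x ∈ lS P i := mem_lS.2 hl
      by_cases h1 : lev x = i + 1
      · obtain ⟨z, hz, ez⟩ := T.touch1 hxS (by unfold tL; omega) hpos
        have lz := lev_dc Q.H hz
        have hzF : z ∈ F2 i e := mem_F2.2 ⟨Or.inl (by omega), ez⟩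
        obtain ⟨y, hy⟩ := h.pend Q hT h0 hzF
        apply key z hzF
        rw [hy.cn]
        rcases hy.lv with ⟨g1, g2, -⟩ | ⟨g1, -⟩
        · have h2 : x ∈ uc z := mem_uc.2 (mem_dc.1 hz)
          rw [g2, mem_singleton] at h2
          rw [h2]
          simp
        · omega
      · by_cases h2 : lev x = i + 2
        · exact hself (mem_F2.2 ⟨Or.inl h2, hpos⟩)
        · have := T.far hxS (by unfold tL; omega)
          omega

/-- different excited pendants have disjoint sites -/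
theorem TC.disj (Q : Nat4 r i K psi C) (hT : Z4 i C ⊆ T4 i C) {k : ℕ} (h : TC i K psi C k e)
    (h0 : TI i e = ∅) {p p' : P} (hp : p ∈ F2 i e) (hp' : p' ∈ F2 i e) (hne : p ≠ p') :
    Disjoint (sit i p) (sit i p') ∧ Disjoint (con i p) (con i p') := by
  classical
  obtain ⟨f, Z, X, f', Z', X', T⟩ := h.tg Q hT
  obtain ⟨y, hy⟩ := h.pend Q hT h0 hp
  obtain ⟨y', hy'⟩ := h.pend Q hT h0 hp'
  have e1 := hy.ey
  have e1' := hy'.ey
  have q1 := hy.ep
  have q1' := hy'.ep
  -- one side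
  have one : ∀ {c c' : P → Finset P} {t t' : P → ℕ} {V Sd Sd' : Finset P} {f f' : P → P}
      {Z X Z' X' : Finset P} (_ : Tg c c' t t' V Sd Sd' e f Z X f' Z' X') (_ : p ∈ Sd) (_ : t p = 2)
      (_ : p' ∈ Sd) (_ : t p' = 2) (_ : c p = {y}) (_ : c p' = {y'}),
      y ≠ y' ∧ Disjoint (c y) (c y') := by
    intro c c' t t' V Sd Sd' f f' Z X Z' X' T pS tp pS' tp' cp cp'
    have hyp : y ∈ c p := by rw [cp]; simp
    have hyp' : y' ∈ c p' := by rw [cp']; simp
    obtain ⟨yS, ty⟩ := near_mem T.s1 pS tp hyp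
    obtain ⟨yS', ty'⟩ := near_mem T.s1 pS' tp' hyp'
    have hyy : y ≠ y' := by
      rintro rfl
      exact hne (T.uniq yS ty ((T.s1.dual _ _).1 hyp) ((T.s1.dual _ _).1 hyp') (by omega) (by omega))
    refine ⟨hyy, ?_⟩
    rw [disjoint_left]
    intro s hs hs'
    obtain ⟨z, zS, tz, ez, h1, h2⟩ := T.meet yS ty yS' ty' hyy (by omega) (by omega) hs hs'
    have h3 := T.uniq yS ty ((T.s1.dual _ _).1 h1) ((T.s1.dual _ _).1 hyp) ez (by omega)
    rw [h3, cp, mem_singleton] at h2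
    exact hyy h2.symm
  have two : ∀ {c c' : P → Finset P} {t t' : P → ℕ} {V Sd Sd' : Finset P} {f f' : P → P}
      {Z X Z' X' : Finset P} {p p' y y' : P} (_ : Tg c c' t t' V Sd Sd' e f Z X f' Z' X')
      (_ : p ∈ Sd) (_ : t p = 2) (_ : p' ∈ Sd') (_ : t' p' = 2) (_ : c p = {y}) (_ : c' p' = {y'})
      (_ : 0 < e y) (_ : 0 < e y'), Disjoint (c y) (c' y') := by
    intro c c' t t' V Sd Sd' f f' Z X Z' X' p p' y y' T pS tp pS' tp' cp cp' hey hey'
    have hyp : y ∈ c p := by rw [cp]; simp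
    have hyp' : y' ∈ c' p' := by rw [cp']; simp
    obtain ⟨yS, ty⟩ := near_mem T.s1 pS tp hyp
    obtain ⟨yS', ty'⟩ := near_mem T.s2 pS' tp' hyp'
    exact T.cross yS ty yS' ty' hey hey'
  have hcd : ∀ {a b a' b' : P}, a ≠ a' → a ≠ b' → b ≠ a' → b ≠ b' →
      Disjoint ({a, b} : Finset P) {a', b'} := by
    intro a b a' b' h1 h2 h3 h4
    rw [disjoint_left]
    intro x hx hx'
    rw [mem_insert, mem_singleton] at hx hx'
    rcases hx with rfl | rfl <;> rcases hx' with rfl | rfl <;> tauto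
  rcases hy.lv with ⟨g1, g2, g3⟩ | ⟨g1, g2, g3⟩
  · have ly := lev_uc Q.H (show y ∈ uc p by rw [g2]; simp)
    rcases hy'.lv with ⟨k1, k2, k3⟩ | ⟨k1, k2, k3⟩
    · have ly' := lev_uc Q.H (show y' ∈ uc p' by rw [k2]; simp)
      have h1 := one T (mem_lS.2 (by omega)) (by unfold tL; omega) (mem_lS.2 (by omega))
        (by unfold tL; omega) g2 k2
      refine ⟨by rw [g3, k3]; exact h1.2, ?_⟩
      rw [hy.cn, hy'.cn]
      exact hcd hne (by rintro rfl; omega) (by rintro rfl; omega) h1.1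
    · have ly' := lev_dc Q.H (show y' ∈ dc p' by rw [k2]; simp)
      have h1 := two T (mem_lS.2 (by omega)) (by unfold tL; omega) (mem_uS.2 (by omega))
        (by unfold tU; omega) g2 k2 (by omega) (by omega)
      refine ⟨by rw [g3, k3]; exact h1, ?_⟩
      rw [hy.cn, hy'.cn]
      exact hcd hne (by rintro rfl; omega) (by rintro rfl; omega) (by rintro rfl; omega)
  · have ly := lev_dc Q.H (show y ∈ dc p by rw [g2]; simp)
    rcases hy'.lv with ⟨k1, k2, k3⟩ | ⟨k1, k2, k3⟩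
    · have ly' := lev_uc Q.H (show y' ∈ uc p' by rw [k2]; simp)
      have h1 := two T (mem_lS.2 (by omega)) (by unfold tL; omega) (mem_uS.2 (by omega))
        (by unfold tU; omega) k2 g2 (by omega) (by omega)
      refine ⟨by rw [g3, k3]; exact h1.symm, ?_⟩
      rw [hy.cn, hy'.cn]
      exact hcd hne (by rintro rfl; omega) (by rintro rfl; omega) (by rintro rfl; omega)
    · have ly' := lev_dc Q.H (show y' ∈ dc p' by rw [k2]; simp)
      have h1 := one T.symm (mem_uS.2 (by omega)) (by unfold tU; omega) (mem_uS.2 (by omega))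
        (by unfold tU; omega) g2 k2
      refine ⟨by rw [g3, k3]; exact h1.2, ?_⟩
      rw [hy.cn, hy'.cn]
      exact hcd hne (by rintro rfl; omega) (by rintro rfl; omega) h1.1

/-- the number of pendants of a tight core without T-elements -/
theorem TC.numF (Q : Nat4 r i K psi C) (hT : Z4 i C ⊆ T4 i C) {k : ℕ} (h : TC i K psi C k e)
    (h0 : TI i e = ∅) : (F2 i e).card = k := by
  classical
  have h1 : ∑ x, e x = ((F2 i e).biUnion (con i)).card := by
    rw [sum_congr rfl fun x _ => h.ind Q hT h0 x, sum_ite_mem, univ_inter, sum_const, smul_eq_mul,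
      mul_one]
  have h2 : ((F2 i e).biUnion (con i)).card = ∑ p ∈ F2 i e, (con i p).card := by
    apply card_biUnion
    intro p hp p' hp' hne
    exact (h.disj Q hT h0 hp hp' hne).2
  have h3 : ∀ p ∈ F2 i e, (con i p).card = 2 := by
    intro p hp
    obtain ⟨y, hy⟩ := h.pend Q hT h0 hp
    rw [hy.cn, card_pair]
    rintro rfl
    rcases hy.lv with ⟨g1, g2, -⟩ | ⟨g1, g2, -⟩
    · have := lev_uc Q.H (show p ∈ uc p by rw [g2]; simp)
      omega
    · have := lev_dc Q.H (show p ∈ dc p by rw [g2]; simp)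
      omega
  rw [h.hn, h2, sum_congr rfl h3, sum_const, smul_eq_mul] at h1
  omega

lemma TC.inPN (Q : Nat4 r i K psi C) (hT : Z4 i C ⊆ T4 i C) {k : ℕ} (h : TC i K psi C k e)
    (h0 : TI i e = ∅) {p : P} (hp : p ∈ F2 i e) : p ∈ PN i C := by
  obtain ⟨y, hy⟩ := h.pend Q hT h0 hp
  exact mem_PN.2 ⟨mem_of_pos h.hs (mem_F2.1 hp).2, hy.pn⟩

/-- no tight core without T-elements if all pendants meet -/
theorem no_pend (Q : Nat4 r i K psi C) (hT : Z4 i C ⊆ T4 i C) (hP : P4 i C = ∅) {k : ℕ} (hk : 2 ≤ k)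
    (h : TC i K psi C k e) : TI i e ≠ ∅ := by
  intro h0
  have h1 := h.numF Q hT h0
  obtain ⟨p, hp, p', hp', hne⟩ := one_lt_card.1 (show 1 < (F2 i e).card by omega)
  have h2 : (p, p') ∈ P4 i C :=
    mem_P4.2 ⟨h.inPN Q hT h0 hp, h.inPN Q hT h0 hp', (h.disj Q hT h0 hp hp' hne).1⟩
  rw [hP] at h2
  exact notMem_empty _ h2

/-- `w(2k, k) = 0` FOR `k ≥ 2` -/
theorem coeff_N_zero (Q : Nat4 r i K psi C) (hT : Z4 i C ⊆ T4 i C) (hP : P4 i C = ∅) {k : ℕ}
    (hk : 2 ≤ k) (hkb : k ≤ (st i C).card) :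
    PowerSeries.coeff ((st i C).card - k) (ZC i C (2 * k)) = 0 := by
  classical
  rw [coeff_N Q hT (by omega) hkb]
  apply sum_eq_zero
  intro e he
  rw [mem_filter] at he
  unfold TCs at he
  rw [mem_filter] at he
  exact absurd he.2 (no_pend Q hT hP hk he.1.2)

end Pool.Agent.GaussPoset.Win.NF
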