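import Pool.Agent.W_448nf_h61.NI
import Pool.Agent.W_448nf_h84.NfB
import Pool.Agent.W_448tp_h44.TpA

/-!
MP_448cb3_co, G2, case B, Route T, block (N): the natural parts with `F = 0`: the polynomial `FS` is
`(1 - X)^m` and the orders are natural.  helper61.
-/

namespace Pool.Agent.GaussPoset.EK

set_option linter.unusedSectionVars false

open Finset Win St Polynomial Wd Win.W4
open Pool.Agent.GaussPoset.Win.SO (PN mem_PN sit_PD sit_PU vp vp_PD vp_PU)

universe u

variable {P : Type u} [Fintype P] [PartialOrder P] [DecidableEq P] {r i j : ℕ}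
variable {K : Finset P} {psi : P → P}

/-- the pendants of a natural part are over neighbouring sites, the upper ones at the ends -/
theorem pend_sites (h : NJ P r j) (hj : 2 ≤ j) {t : Tops P} (hn : NatT j (t : P)) {m : ℕ}
    {x : ℕ → P} {c : ℕ → ℤ} {β : ℤ} (R : RowB P j t m x c β) {p : P}
    (hp : p ∈ PN j (cext (j + 1) (topOf : P → Tops P) t)) :
    ∃ a, a + 1 ≤ m ∧ sit j p = {x a, x (a + 1)} ∧ (p ∈ PU P j → a = 0 ∨ a + 1 = m) := by
  classical
  have H := h.g.H
  have hC : Part (j + 1) (cext (j + 1) (topOf : P → Tops P) t) := part_cext H le_rfl h.split t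
  obtain ⟨hpC, hpn⟩ := mem_PN.1 hp
  -- two sites with a common upper cover
  have key : ∀ {s : Finset P} {u v : P}, u ≠ v → s = {u, v} →
      u ∈ cext (j + 1) (topOf : P → Tops P) t → v ∈ cext (j + 1) (topOf : P → Tops P) t →
      lev u = j → lev v = j → 0 < ucv u v → ∃ a, a + 1 ≤ m ∧ s = {x a, x (a + 1)} := by
    intro s u v huv hs hu hv lu lv' hcv
    have tu := (mem_cext.1 hu) u le_rfl (by omega)
    have tv := (mem_cext.1 hv) v le_rfl (by omega)
    obtain ⟨k, hk, rfl⟩ := R.row.surj u lu tu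
    obtain ⟨l, hl, rfl⟩ := R.row.surj v lv' tv
    have hkl : k ≠ l := by
      rintro rfl
      exact huv rfl
    rcases Nat.lt_or_gt_of_ne hkl with h1 | h1
    · rw [R.ucv_x k l h1 hl] at hcv
      split_ifs at hcv with h2
      · subst h2
        exact ⟨k, hl, hs⟩
      · omega
    · rw [show ucv (x k) (x l) = ucv (x l) (x k) by unfold ucv; congr 1; ext y; simp [and_comm], R.ucv_x l k h1 hk] at hcv
      split_ifs at hcv with h2
      · subst h2
        exact ⟨l, hk, by rw [hs, pair_comm]⟩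
      · omega
  rcases hpn with hpD | hpU
  · obtain ⟨lp, cp, w, hw, hw2⟩ := mem_PD.1 hpD
    obtain ⟨y, hy⟩ := card_eq_one.1 cp
    have hwy : w = y := by
      have h1 := mem_uc.2 hw
      rw [hy, mem_singleton] at h1
      exact h1
    subst hwy
    have lw := lev_uc H (mem_uc.2 hw)
    obtain ⟨u, v, huv, huc⟩ := card_eq_two.1 hw2
    have hu : w ⋖ u := mem_uc.1 (by rw [huc]; simp)
    have hv : w ⋖ v := mem_uc.1 (by rw [huc]; simp)
    have lu := lev_uc H (mem_uc.2 hu)
    have lv' := lev_uc H (mem_uc.2 hv)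
    have wC := hC.up hpC hw
    have uC := hC.up wC hu
    have vC := hC.up wC hv
    have tu := (mem_cext.1 uC) u le_rfl (by omega)
    have tv := (mem_cext.1 vC) v le_rfl (by omega)
    have hd : 0 < dcv u v := by
      unfold dcv
      rw [card_pos]
      exact ⟨w, by simp [hu, hv]⟩
    have hcv : 0 < ucv u v := by
      rw [hn u v (by omega) (by omega) (by rw [← tu]; exact le_topOf u)
        (by rw [← tv]; exact le_topOf v) huv]
      exact hd
    obtain ⟨a, ha, hs⟩ := key huv (s := sit j p) (by rw [sit_PD H lp hy, huc]) uC vC (by omega)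
      (by omega) hcv
    refine ⟨a, ha, hs, fun hU => ?_⟩
    have := (mem_PU.1 hU).1
    omega
  · obtain ⟨lp, cp, w, hw, hw2⟩ := mem_PU.1 hpU
    obtain ⟨y, hy⟩ := card_eq_one.1 cp
    have hwy : w = y := by
      have h1 := mem_dc.2 hw
      rw [hy, mem_singleton] at h1
      exact h1
    subst hwy
    have lw := lev_dc H (mem_dc.2 hw)
    obtain ⟨u, v, huv, huc⟩ := card_eq_two.1 hw2
    have hu : u ⋖ w := mem_dc.1 (by rw [huc]; simp)
    have hv : v ⋖ w := mem_dc.1 (by rw [huc]; simp)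
    have lu := lev_dc H (mem_dc.2 hu)
    have lv' := lev_dc H (mem_dc.2 hv)
    have wC := hC.dn hpC (by omega) hw
    have uC := hC.dn wC (by omega) hu
    have vC := hC.dn wC (by omega) hv
    have hcv : 0 < ucv u v := by
      unfold ucv
      rw [card_pos]
      exact ⟨w, by simp [hu, hv]⟩
    obtain ⟨a, ha, hs⟩ := key huv (s := sit j p) (by rw [sit_PU H lp hy, huc]) uC vC (by omega)
      (by omega) hcv
    refine ⟨a, ha, hs, fun _ => ?_⟩
    by_contra hne
    have hdw : dc w = {x a, x (a + 1)} := by rw [← hs, sit_PU H lp hy]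
    have h1 : x a ⋖ w := mem_dc.1 (by rw [hdw]; simp)
    have h2 : x (a + 1) ⋖ w := mem_dc.1 (by rw [hdw]; simp)
    have h3 := R.pu a (by omega) (by omega) w h1 h2 p hw
    omega

/-- two pairs of neighbouring sites -/
lemma pair_meet {m : ℕ} {x : ℕ → P} (inj : ∀ k l, k ≤ m → l ≤ m → x k = x l → k = l) {a b : ℕ}
    (ha : a + 1 ≤ m) (hb : b + 1 ≤ m) :
    Disjoint ({x a, x (a + 1)} : Finset P) {x b, x (b + 1)} ↔ a ≠ b ∧ a + 1 ≠ b ∧ a ≠ b + 1 := by
  constructor
  · intro h
    rw [disjoint_left] at h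
    refine ⟨?_, ?_, ?_⟩
    · rintro rfl
      exact h (show x a ∈ _ by simp) (by simp)
    · rintro rfl
      exact h (show x (a + 1) ∈ _ by simp) (by simp)
    · rintro rfl
      exact h (show x (b + 1) ∈ _ by simp) (by simp)
  · rintro ⟨h1, h2, h3⟩
    rw [disjoint_left]
    intro v hv hv'
    rw [mem_insert, mem_singleton] at hv hv'
    rcases hv with hv | hv <;> rcases hv' with hv' | hv'
    · exact h1 (inj a b (by omega) (by omega) (hv.symm.trans hv'))
    · exact h3 (inj a (b + 1) (by omega) (by omega) (hv.symm.trans hv'))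
    · exact h2 (inj (a + 1) b (by omega) (by omega) (hv.symm.trans hv'))
    · have := inj (a + 1) (b + 1) (by omega) (by omega) (hv.symm.trans hv')
      omega

/-- in the world `F = 0` all pendants of a natural part meet -/
theorem NJ.nat_P4 (h : NJ P r j) (hj : 2 ≤ j) {t : Tops P} (hn : NatT j (t : P))
    (hDU : DU j (cext (j + 1) (topOf : P → Tops P) t) = DC j (cext (j + 1) (topOf : P → Tops P) t)) :
    P4 j (cext (j + 1) (topOf : P → Tops P) t) = ∅ := by
  classical
  obtain ⟨m, x, c, β, R⟩ := NJ.rowB h hj t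
  have hU1 := NJ.UC_le h hj t
  rw [eq_empty_iff_forall_notMem]
  rintro ⟨p, p'⟩ hq
  obtain ⟨hp, hp', hdis⟩ := mem_P4.1 hq
  have hp2 : p ∈ PN j (cext (j + 1) (topOf : P → Tops P) t) := hp
  have hp2' : p' ∈ PN j (cext (j + 1) (topOf : P → Tops P) t) := hp'
  have hd : Disjoint (sit j p) (sit j p') := hdis
  obtain ⟨a, ha, hsa, hUa⟩ := pend_sites h hj hn R hp2
  obtain ⟨b, hb, hsb, hUb⟩ := pend_sites h hj hn R hp2'
  rw [hsa, hsb, pair_meet R.row.inj ha hb] at hd
  obtain ⟨hpC, hpn⟩ := mem_PN.1 hp2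
  obtain ⟨hpC', hpn'⟩ := mem_PN.1 hp2'
  -- a lower pendant meets the upper one
  have meet : ∀ {q : P} {d : ℕ}, q ∈ cext (j + 1) (topOf : P → Tops P) t → q ∈ PD P j → d + 1 ≤ m →
      sit j q = {x d, x (d + 1)} → ∃ u ∈ UC j (cext (j + 1) (topOf : P → Tops P) t), ∃ f,
        f + 1 ≤ m ∧ sit j u = {x f, x (f + 1)} ∧ (f = 0 ∨ f + 1 = m) ∧ (d = f ∨ d + 1 = f ∨ d = f + 1) := by
    intro q d hqC hqD hd hsd
    have h1 : q ∈ DU j (cext (j + 1) (topOf : P → Tops P) t) := by
      rw [hDU]; exact mem_DC.2 ⟨hqC, hqD⟩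
    unfold DU at h1
    rw [mem_filter] at h1
    obtain ⟨-, u, hu, hmt⟩ := h1
    obtain ⟨huC, huU⟩ := mem_UC.1 hu
    obtain ⟨f, hf, hsf, hUf⟩ := pend_sites h hj hn R (mem_PN.2 ⟨huC, Or.inr huU⟩)
    rw [hsd, hsf, pair_meet R.row.inj hd hf] at hmt
    refine ⟨u, hu, f, hf, hsf, hUf huU, ?_⟩
    by_contra hc
    apply hmt
    omega
  have uniq : ∀ {u u' : P}, u ∈ UC j (cext (j + 1) (topOf : P → Tops P) t) →
      u' ∈ UC j (cext (j + 1) (topOf : P → Tops P) t) → u = u' := by
    intro u u' hu hu'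
    exact card_le_one.1 hU1 u hu u' hu'
  have idx : ∀ {f f' : ℕ}, f + 1 ≤ m → f' + 1 ≤ m →
      ({x f, x (f + 1)} : Finset P) = {x f', x (f' + 1)} → f = f' := by
    intro f f' hf hf' he
    by_contra hne
    have h1 : x f ∈ ({x f', x (f' + 1)} : Finset P) := by rw [← he]; simp
    have h2 : x (f + 1) ∈ ({x f', x (f' + 1)} : Finset P) := by rw [← he]; simp
    rw [mem_insert, mem_singleton] at h1 h2
    rcases h1 with h1 | h1
    · exact hne (R.row.inj _ _ (by omega) (by omega) h1)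
    · have e1 := R.row.inj _ _ (by omega) (by omega) h1
      rcases h2 with h2 | h2
      · have := R.row.inj _ _ (by omega) (by omega) h2
        omega
      · have := R.row.inj _ _ (by omega) (by omega) h2
        omega
  rcases hpn with hD | hU
  · obtain ⟨u, hu, f, hf, hsf, hf2, hf3⟩ := meet hpC hD ha hsa
    rcases hpn' with hD' | hU'
    · obtain ⟨u', hu', f', hf', hsf', hf2', hf3'⟩ := meet hpC' hD' hb hsb
      have e1 := uniq hu hu'
      subst e1
      have e2 := idx hf hf' (by rw [← hsf, ← hsf'])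
      omega
    · have e1 := uniq hu (mem_UC.2 ⟨hpC', hU'⟩)
      subst e1
      have e2 := idx hf hb (by rw [← hsf, ← hsb])
      omega
  · rcases hpn' with hD' | hU'
    · obtain ⟨u, hu, f, hf, hsf, hf2, hf3⟩ := meet hpC' hD' hb hsb
      have e1 := uniq hu (mem_UC.2 ⟨hpC, hU⟩)
      subst e1
      have e2 := idx hf ha (by rw [← hsf, ← hsa])
      omega
    · have e1 := uniq (mem_UC.2 ⟨hpC, hU⟩) (mem_UC.2 ⟨hpC', hU'⟩)
      subst e1
      have e2 := idx ha hb (by rw [← hsa, ← hsb])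
      omega

/-- BLOCK (N): the orders of a natural part -/
theorem NJ.nat_ord (h : NJ P r j) (hj : 2 ≤ j) {t : Tops P} (hn : NatT j (t : P))
    (hF : Fn j (cext (j + 1) (topOf : P → Tops P) t) = 0) (n : ℕ) :
    dd ^ ((st j (cext (j + 1) (topOf : P → Tops P) t)).card - n / 2) ∣
      ZC j (cext (j + 1) (topOf : P → Tops P) t) n := by
  obtain ⟨K, psi, R⟩ := exists_red P j
  exact NF.ord_N (NJ.nat4 h hj R hn) (NJ.nat_F_zero h hj hn hF).1.symm.subset n

/-- BLOCK (N): the polynomial of a natural part is `(1 - X)^m` -/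
theorem NJ.nat_Nt (h : NJ P r j) (hj : 2 ≤ j) {t : Tops P} (hn : NatT j (t : P))
    (hF : Fn j (cext (j + 1) (topOf : P → Tops P) t) = 0) :
    K2.Tr.Nt (Tp.FS j (cext (j + 1) (topOf : P → Tops P) t)) := by
  classical
  obtain ⟨K, psi, R⟩ := exists_red P j
  have Q := NJ.nat4 h hj R hn
  obtain ⟨f1, f2, f3⟩ := NJ.nat_F_zero h hj hn hF
  have hP := NJ.nat_P4 h hj hn f2
  have hb := NJ.st_pos h t
  have hU := NJ.UC_le h hj t
  set C := cext (j + 1) (topOf : P → Tops P) t with hC
  -- at most one lower pendant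
  have hD : (DC j C).card ≤ 1 := by
    rw [card_le_one]
    intro p hp p' hp'
    by_contra hne
    have h1 : Disjoint (sit j p) (sit j p') := by
      by_contra h2
      have h3 : (p, p') ∈ D2 j C := by
        unfold D2
        rw [mem_filter, mem_product]
        exact ⟨⟨hp, hp'⟩, hne, h2⟩
      rw [f3] at h3
      exact notMem_empty _ h3
    have h2 : (p, p') ∈ P4 j C := mem_P4.2 ⟨mem_PN.2 ⟨(mem_DC.1 hp).1, Or.inl (mem_DC.1 hp).2⟩,
      mem_PN.2 ⟨(mem_DC.1 hp').1, Or.inl (mem_DC.1 hp').2⟩, h1⟩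
    rw [hP] at h2
    exact notMem_empty _ h2
  have hDU : (UC j C).card = 0 → (DC j C).card = 0 := by
    intro h0
    rw [← f2]
    unfold DU
    rw [card_eq_zero.1 h0]
    simp
  -- the coefficient of `X`
  have h1 : PowerSeries.coeff 1 (Tp.FS j C) = ((DC j C).card : ℤ) - (UC j C).card := by
    rw [Tp.coeff_FS, if_pos ⟨by norm_num, hb⟩]
    have e1 := Q.al2
    rw [sum_vp] at e1
    rw [← e1]
    unfold I2.al
    rw [coeff_ZS]
    obtain ⟨b, hb'⟩ : ∃ b, (st j C).card = b + 1 := ⟨(st j C).card - 1, by omega⟩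
    rw [hb', Nat.add_sub_cancel]
    unfold dd
    rw [PowerSeries.coeff_succ_X_mul]
  have h2 : ∀ k, 2 ≤ k → k ≤ 6 → PowerSeries.coeff k (Tp.FS j C) = 0 := by
    intro k hk _
    rw [Tp.coeff_FS]
    split_ifs with hc
    · exact NF.coeff_N_zero Q f1.symm.subset hP hk hc.2
    · rfl
  refine ⟨(UC j C).card - (DC j C).card, fun k hk hk6 => ?_⟩
  rcases Nat.lt_or_ge k 2 with hk2 | hk2
  · have : k = 1 := by omega
    subst this
    rw [h1]
    rcases Nat.eq_zero_or_pos (UC j C).card with g1 | g1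
    · have g2 := hDU g1
      rw [g1, g2]
      simp
    · have g2 : (UC j C).card = 1 := by omega
      rw [g2]
      rcases Nat.eq_zero_or_pos (DC j C).card with g3 | g3
      · rw [g3]
        simp
      · have g4 : (DC j C).card = 1 := by omega
        rw [g4]
        simp
  · rw [h2 k hk2 hk6]
    have g1 : (UC j C).card - (DC j C).card = 0 ∨ (UC j C).card - (DC j C).card = 1 := by omega
    rcases g1 with g1 | g1
    · rw [g1, pow_zero, PowerSeries.coeff_one, if_neg (by omega)]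
    · rw [g1, pow_one, map_sub, PowerSeries.coeff_one, PowerSeries.coeff_X, if_neg (by omega),
        if_neg (by omega), sub_zero]

end Pool.Agent.GaussPoset.EK
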